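import Pool.Agent.P.MP_6c54ca_co.Search

set_option autoImplicit false

namespace Pool.Agent.P.MP_6c54ca_co

theorem sid_of_nodup {G : Type*} [AddCommGroup G] [DecidableEq G] (l : List G)
    (h : (l.sym2.map (Sym2.lift ⟨fun a b => a + b, add_comm⟩)).Nodup) :
    ∃ A : Finset G, Sid A ∧ A.card = l.length := by
  have h1 : l.sym2.Nodup := h.of_map _
  have h2 : l.Nodup := by
    induction l with
    | nil => exact List.nodup_nil
    | cons x t ih =>
      rw [List.sym2, List.map_append] at h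
      rw [List.sym2, List.nodup_append] at h1
      exact h1.1.of_map _
  refine ⟨l.toFinset, fun a ha b hb c hc d hd e => ?_, List.toFinset_card_of_nodup h2⟩
  rw [List.mem_toFinset] at ha hb hc hd
  exact Sym2.eq_iff.1 (List.inj_on_of_nodup_map h (List.mk_mem_sym2 ha hb) (List.mk_mem_sym2 hc hd) e)

theorem ex1 : ∃ A : Finset (ZMod 1 × ZMod 1), Sid A ∧ A.card = 1 :=
  sid_of_nodup [(0, 0)] (by decide +kernel)

theorem ex2 : ∃ A : Finset (ZMod 2 × ZMod 2), Sid A ∧ A.card = 1 :=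
  sid_of_nodup [(0, 0)] (by decide +kernel)

theorem ex3 : ∃ A : Finset (ZMod 3 × ZMod 3), Sid A ∧ A.card = 3 :=
  sid_of_nodup [(0, 0), (1, 1), (2, 1)] (by decide +kernel)

theorem ex4 : ∃ A : Finset (ZMod 4 × ZMod 4), Sid A ∧ A.card = 4 :=
  sid_of_nodup [(0, 0), (0, 1), (1, 0), (3, 3)] (by decide +kernel)

theorem ex5 : ∃ A : Finset (ZMod 5 × ZMod 5), Sid A ∧ A.card = 5 :=
  sid_of_nodup [(0, 0), (1, 1), (2, 4), (3, 4), (4, 1)] (by decide +kernel)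

theorem ex6 : ∃ A : Finset (ZMod 6 × ZMod 6), Sid A ∧ A.card = 6 :=
  sid_of_nodup [(0, 0), (0, 1), (1, 0), (1, 2), (3, 2), (5, 3)] (by decide +kernel)

theorem ex7 : ∃ A : Finset (ZMod 7 × ZMod 7), Sid A ∧ A.card = 7 :=
  sid_of_nodup [(0, 0), (1, 1), (2, 4), (3, 2), (4, 2), (5, 4), (6, 1)] (by decide +kernel)

theorem ex8 : ∃ A : Finset (ZMod 8 × ZMod 8), Sid A ∧ A.card = 7 :=
  sid_of_nodup [(0, 0), (0, 1), (0, 3), (1, 0), (2, 1), (3, 3), (6, 4)] (by decide +kernel)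

theorem ex9 : ∃ A : Finset (ZMod 9 × ZMod 9), Sid A ∧ A.card = 8 :=
  sid_of_nodup [(0, 0), (0, 1), (0, 3), (1, 0), (1, 4), (2, 2), (3, 7), (5, 3)] (by decide +kernel)

theorem ex10 : ∃ A : Finset (ZMod 10 × ZMod 10), Sid A ∧ A.card = 9 :=
  sid_of_nodup [(1, 5), (2, 3), (3, 2), (4, 7), (5, 1), (6, 8), (7, 4), (8, 6), (9, 9)] (by decide +kernel)

theorem ex11 : ∃ A : Finset (ZMod 11 × ZMod 11), Sid A ∧ A.card = 11 :=
  sid_of_nodup [(0, 0), (1, 1), (2, 4), (3, 9), (4, 5), (5, 3), (6, 3), (7, 5), (8, 9),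
    (9, 4), (10, 1)] (by decide +kernel)

theorem ex12 : ∃ A : Finset (ZMod 12 × ZMod 12), Sid A ∧ A.card = 11 :=
  sid_of_nodup [(1, 6), (2, 10), (3, 5), (4, 7), (5, 3), (6, 1), (7, 4), (8, 9),
    (9, 8), (10, 2), (11, 11)] (by decide +kernel)

theorem ex13 : ∃ A : Finset (ZMod 13 × ZMod 13), Sid A ∧ A.card = 13 :=
  sid_of_nodup [(0, 0), (1, 1), (2, 4), (3, 9), (4, 3), (5, 12), (6, 10), (7, 10), (8, 12),
    (9, 3), (10, 9), (11, 4), (12, 1)] (by decide +kernel)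

end Pool.Agent.P.MP_6c54ca_co
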