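import Pool.Agent.P.MP_6c54ca_co.Sound
import Pool.Agent.P.MP_6c54ca_co.TwelveA
import Pool.Agent.P.MP_6c54ca_co.TwelveB
import Pool.Agent.P.MP_6c54ca_co.TwelveC
import Pool.Agent.P.MP_6c54ca_co.TwelveD
import Pool.Agent.P.MP_6c54ca_co.TwelveE

set_option autoImplicit false

namespace Pool.Agent.P.MP_6c54ca_co

theorem hB12 : ∀ i, Nat.testBit 121387170224502475507781852122729031022810874004722410895890646056421649258612002815 i = true → i % (2 * 12) < 12 :=
  base_mask (k := 12) (by decide +kernel) (by decide +kernel)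

theorem n12_0 : ∀ i < 10, NoP 12 (patt P12 i) :=
  chks_spec (by decide) hB12 _ 0 (fun _ h => absurd h (Nat.not_lt_zero _)) c12_0

theorem n12_1 : ∀ i < 18, NoP 12 (patt P12 i) :=
  chks_spec (by decide) hB12 _ 10 n12_0 c12_1

theorem n12_2 : ∀ i < 25, NoP 12 (patt P12 i) :=
  chks_spec (by decide) hB12 _ 18 n12_1 c12_2

theorem n12_3 : ∀ i < 35, NoP 12 (patt P12 i) :=
  chks_spec (by decide) hB12 _ 25 n12_2 c12_3

theorem n12_4 : ∀ i < 41, NoP 12 (patt P12 i) :=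
  chks_spec (by decide) hB12 _ 35 n12_3 c12_4

theorem n12_5 : ∀ i < 45, NoP 12 (patt P12 i) :=
  chks_spec (by decide) hB12 _ 41 n12_4 c12_5

theorem n12_6 : ∀ i < 48, NoP 12 (patt P12 i) :=
  chks_spec (by decide) hB12 _ 45 n12_5 c12_6

theorem n12_7 : ∀ i < 53, NoP 12 (patt P12 i) :=
  chks_spec (by decide) hB12 _ 48 n12_6 c12_7

theorem n12_8 : ∀ i < 60, NoP 12 (patt P12 i) :=
  chks_spec (by decide) hB12 _ 53 n12_7 c12_8

theorem n12_9 : ∀ i < 67, NoP 12 (patt P12 i) :=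
  chks_spec (by decide) hB12 _ 60 n12_8 c12_9

theorem n12_10 : ∀ i < 73, NoP 12 (patt P12 i) :=
  chks_spec (by decide) hB12 _ 67 n12_9 c12_10

theorem n12_11 : ∀ i < 80, NoP 12 (patt P12 i) :=
  chks_spec (by decide) hB12 _ 73 n12_10 c12_11

theorem n12_12 : ∀ i < 83, NoP 12 (patt P12 i) :=
  chks_spec (by decide) hB12 _ 80 n12_11 c12_12

theorem n12_13 : ∀ i < 85, NoP 12 (patt P12 i) :=
  chks_spec (by decide) hB12 _ 83 n12_12 c12_13

theorem n12_14 : ∀ i < 87, NoP 12 (patt P12 i) :=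
  chks_spec (by decide) hB12 _ 85 n12_13 c12_14

theorem n12_15 : ∀ i < 90, NoP 12 (patt P12 i) :=
  chks_spec (by decide) hB12 _ 87 n12_14 c12_15

theorem n12_16 : ∀ i < 95, NoP 12 (patt P12 i) :=
  chks_spec (by decide) hB12 _ 90 n12_15 c12_16

theorem n12_17 : ∀ i < 103, NoP 12 (patt P12 i) :=
  chks_spec (by decide) hB12 _ 95 n12_16 c12_17

theorem n12_18 : ∀ i < 121, NoP 12 (patt P12 i) :=
  chks_spec (by decide) hB12 _ 103 n12_17 c12_18

theorem n12_19 : ∀ i < 124, NoP 12 (patt P12 i) :=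
  chks_spec (by decide) hB12 _ 121 n12_18 c12_19

theorem n12_20 : ∀ i < 135, NoP 12 (patt P12 i) :=
  chks_spec (by decide) hB12 _ 124 n12_19 c12_20

theorem n12_21 : ∀ i < 141, NoP 12 (patt P12 i) :=
  chks_spec (by decide) hB12 _ 135 n12_20 c12_21

theorem n12_22 : ∀ i < 164, NoP 12 (patt P12 i) :=
  chks_spec (by decide) hB12 _ 141 n12_21 c12_22

theorem n12_23 : ∀ i < 172, NoP 12 (patt P12 i) :=
  chks_spec (by decide) hB12 _ 164 n12_22 c12_23

theorem n12_24 : ∀ i < 190, NoP 12 (patt P12 i) :=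
  chks_spec (by decide) hB12 _ 172 n12_23 c12_24

theorem n12_25 : ∀ i < 200, NoP 12 (patt P12 i) :=
  chks_spec (by decide) hB12 _ 190 n12_24 c12_25

theorem n12_26 : ∀ i < 209, NoP 12 (patt P12 i) :=
  chks_spec (by decide) hB12 _ 200 n12_25 c12_26

theorem n12_27 : ∀ i < 215, NoP 12 (patt P12 i) :=
  chks_spec (by decide) hB12 _ 209 n12_26 c12_27

theorem n12_28 : ∀ i < 219, NoP 12 (patt P12 i) :=
  chks_spec (by decide) hB12 _ 215 n12_27 c12_28

theorem no12 : NoP 12 [] := by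
  have h := n12_28 218 (by decide)
  rwa [show patt P12 218 = [] by decide +kernel] at h

end Pool.Agent.P.MP_6c54ca_co
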