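import Pool.Agent.P.MP_6c54ca_co.Small
import Pool.Agent.P.MP_6c54ca_co.Twelve
import Pool.Agent.P.MP_6c54ca_co.Ex

set_option autoImplicit false

namespace Pool.Agent.P.MP_6c54ca_co

theorem Sid.card_le {G : Type*} [AddCommGroup G] [Fintype G] {A : Finset G} (hA : Sid A) :
    A.card * A.card - A.card ≤ Fintype.card G - 1 := by
  classical
  rw [← Finset.offDiag_card, ← Finset.card_univ, ← Finset.card_erase_of_mem (Finset.mem_univ (0 : G))]
  refine Finset.card_le_card_of_injOn (fun p => p.1 - p.2) (fun p hp => ?_) fun p hp q hq e => ?_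
  · simpa [sub_eq_zero] using (Finset.mem_offDiag.1 hp).2.2
  · obtain ⟨h1, h2, h3⟩ := Finset.mem_offDiag.1 hp
    obtain ⟨h4, h5, -⟩ := Finset.mem_offDiag.1 hq
    have e' : p.1 - p.2 = q.1 - q.2 := e
    rcases hA _ h1 _ h5 _ h4 _ h2 (sub_eq_sub_iff_add_eq_add.1 e') with h | h
    · exact Prod.ext h.1 h.2.symm
    · exact absurd h.1 h3

theorem upper {k : ℕ} (hk : 0 < k) {A : Finset (ZMod k × ZMod k)} (hA : Sid A) : A.card ≤ k := by
  have : NeZero k := ⟨hk.ne'⟩
  have h := hA.card_le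
  rw [Fintype.card_prod, ZMod.card] at h
  by_contra hc
  obtain ⟨d, hd⟩ := Nat.exists_eq_add_of_lt (not_le.1 hc)
  rw [hd] at h
  have e : (k + d + 1) * (k + d + 1) = k * k + (k + d + 1) + (k + 2 * k * d + d * d + d) := by ring
  omega

theorem great_eq {k : ℕ} (hk : 0 < k) (h : ∃ A : Finset (ZMod k × ZMod k), Sid A ∧ A.card = k) :
    IsGreatest {m | ∃ A : Finset (ZMod k × ZMod k), Sid A ∧ A.card = m} k :=
  ⟨h, fun _ ⟨_, h1, h2⟩ => h2 ▸ upper hk h1⟩

theorem great_pred {k : ℕ} (hk : 0 < k) (h : NoP k []) 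
    (h' : ∃ A : Finset (ZMod k × ZMod k), Sid A ∧ A.card = k - 1) :
    IsGreatest {m | ∃ A : Finset (ZMod k × ZMod k), Sid A ∧ A.card = m} (k - 1) :=
  ⟨h', fun _ ⟨B, h1, h2⟩ => by
    have := upper hk h1
    have : B.card ≠ k := fun e => h B h1 e (by simp)
    omega⟩

theorem no2 : NoP 2 [] := fun A hA hc _ => by
  obtain ⟨a, b, hab, rfl⟩ := Finset.card_eq_two.1 hc
  have h : ∀ z : ZMod 2 × ZMod 2, z + z = 0 := by decide
  rcases hA a (by simp) a (by simp) b (by simp) b (by simp) (by rw [h, h]) with h | h <;>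
    exact hab h.1

theorem main (k : ℕ) (h1 : 1 ≤ k) (h2 : k ≤ 13) :
    IsGreatest {m | ∃ A : Finset (ZMod k × ZMod k), Sid A ∧ A.card = m}
      (if k ∈ ({2, 8, 9, 10, 12} : Finset ℕ) then k - 1 else k) := by
  interval_cases k
  · exact great_eq h1 ex1
  · exact great_pred h1 no2 ex2
  · exact great_eq h1 ex3
  · exact great_eq h1 ex4
  · exact great_eq h1 ex5
  · exact great_eq h1 ex6
  · exact great_eq h1 ex7
  · exact great_pred h1 no8 ex8
  · exact great_pred h1 no9 ex9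
  · exact great_pred h1 no10 ex10
  · exact great_eq h1 ex11
  · exact great_pred h1 no12 ex12
  · exact great_eq h1 ex13

end Pool.Agent.P.MP_6c54ca_co
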