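import Mathlib

/-! Sidon sets pulled back along Freiman maps. -/

namespace Pool.Agent.P.MP_6c54ca_co.Od

open Finset

def Sd {G : Type*} [AddCommGroup G] (A : Finset G) : Prop :=
  ∀ a ∈ A, ∀ b ∈ A, ∀ c ∈ A, ∀ d ∈ A, a + b = c + d → (a = c ∧ b = d) ∨ (a = d ∧ b = c)

theorem pull0 {G Γ : Type*} [AddCommGroup G] [AddCommGroup Γ] (β : Γ → G) (T : Finset Γ)
    (hβ : ∀ x ∈ T, ∀ y ∈ T, ∀ z ∈ T, ∀ w ∈ T, β x + β y = β z + β w → x + y = z + w)
    (hT : Sd T) : ∃ A : Finset G, Sd A ∧ #A = #T := by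
  classical
  refine ⟨T.image β, ?_, ?_⟩
  · intro a ha b hb c hc d hd h
    obtain ⟨x, hx, rfl⟩ := mem_image.mp ha
    obtain ⟨y, hy, rfl⟩ := mem_image.mp hb
    obtain ⟨z, hz, rfl⟩ := mem_image.mp hc
    obtain ⟨w, hw, rfl⟩ := mem_image.mp hd
    rcases hT x hx y hy z hz w hw (hβ x hx y hy z hz w hw h) with h1 | h1
    · left; rw [h1.1, h1.2]; exact ⟨rfl, rfl⟩
    · right; rw [h1.1, h1.2]; exact ⟨rfl, rfl⟩
  · apply card_image_of_injOn
    intro x hx y hy h
    have h1 := hβ x hx x hx y hy x hx (by rw [h])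
    exact add_right_cancel h1

theorem pull {G Γ : Type*} [AddCommGroup G] [AddCommGroup Γ] [Fintype Γ] (β : Γ → G)
    (B T : Finset Γ)
    (hβ : ∀ x ∈ B, ∀ y ∈ B, ∀ z ∈ B, ∀ w ∈ B, β x + β y = β z + β w → x + y = z + w)
    (hT : Sd T) : ∃ A : Finset G, Sd A ∧ #T * #B ≤ Fintype.card Γ * #A := by
  classical
  have hsum : ∑ t : Γ, #{x ∈ B | x - t ∈ T} = #T * #B := by
    have e1 : ∀ t : Γ, #{x ∈ B | x - t ∈ T} = ∑ x ∈ B, if x - t ∈ T then 1 else 0 := by
      intro t; rw [card_filter]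
    simp_rw [e1]
    rw [sum_comm]
    have e2 : ∀ x ∈ B, (∑ t : Γ, if x - t ∈ T then 1 else 0) = #T := by
      intro x _
      rw [← card_filter]
      apply card_nbij' (fun t => x - t) (fun s => x - s)
      · intro t ht; simpa using ht
      · intro s hs; simpa using hs
      · intro t _; simp
      · intro s _; simp
    rw [sum_congr rfl e2, sum_const, smul_eq_mul, mul_comm]
  have hex : ∃ t ∈ (univ : Finset Γ), #T * #B ≤ Fintype.card Γ * #{x ∈ B | x - t ∈ T} := by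
    apply exists_le_of_sum_le univ_nonempty
    rw [sum_const, smul_eq_mul, card_univ, ← mul_sum, hsum]
  obtain ⟨t, -, ht⟩ := hex
  obtain ⟨A, hA, hc⟩ := pull0 β {x ∈ B | x - t ∈ T}
    (fun x hx y hy z hz w hw h => hβ x (mem_filter.mp hx).1 y (mem_filter.mp hy).1
      z (mem_filter.mp hz).1 w (mem_filter.mp hw).1 h) (by
      intro a ha b hb c hc d hd h
      have h1 := hT _ (mem_filter.mp ha).2 _ (mem_filter.mp hb).2 _ (mem_filter.mp hc).2
        _ (mem_filter.mp hd).2 (by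
          calc a - t + (b - t) = (a + b) - t - t := by abel
            _ = (c + d) - t - t := by rw [h]
            _ = c - t + (d - t) := by abel)
      simpa only [sub_left_inj] using h1)
  exact ⟨A, hA, hc ▸ ht⟩

theorem parabola (K : Type*) [Field K] [Fintype K] (h2 : (2 : K) ≠ 0) :
    ∃ T : Finset (K × K), Sd T ∧ #T = Fintype.card K := by
  classical
  refine ⟨univ.image fun x : K => (x, x ^ 2), ?_, ?_⟩
  · intro a ha b hb c hc d hd h
    obtain ⟨x, -, rfl⟩ := mem_image.mp ha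
    obtain ⟨y, -, rfl⟩ := mem_image.mp hb
    obtain ⟨z, -, rfl⟩ := mem_image.mp hc
    obtain ⟨w, -, rfl⟩ := mem_image.mp hd
    have h1 : x + y = z + w := congrArg Prod.fst h
    have h3 : x ^ 2 + y ^ 2 = z ^ 2 + w ^ 2 := congrArg Prod.snd h
    have h4 : w = x + y - z := by rw [h1]; ring
    have h5 : 2 * ((x - z) * (y - z)) = 0 := by
      rw [h4] at h3; linear_combination -h3
    rcases mul_eq_zero.mp ((mul_eq_zero.mp h5).resolve_left h2) with h6 | h6
    · have e : x = z := sub_eq_zero.mp h6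
      left; rw [h4, e]; simp
    · have e : y = z := sub_eq_zero.mp h6
      right; rw [h4, e]; simp
  · rw [card_image_of_injective _ (fun x y h => congrArg Prod.fst h), card_univ]

theorem split_digits {a a' b b' M : ℕ} (ha : a < M) (ha' : a' < M)
    (h : a + b * M = a' + b' * M) : a = a' ∧ b = b' := by
  have h1 : a = a' := by
    have := congrArg (· % M) h
    simpa [Nat.add_mul_mod_self_right, Nat.mod_eq_of_lt ha, Nat.mod_eq_of_lt ha'] using this
  refine ⟨h1, ?_⟩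
  subst h1
  exact Nat.eq_of_mul_eq_mul_right (by omega) (Nat.add_left_cancel h)

/-- `G` contains a Freiman copy of `H × ℤ/e` -/
def Ext (G H : Type*) [AddCommGroup G] [AddCommGroup H] (e : ℕ) : Prop :=
  ∃ ψ : H → ℕ → G, ∀ h₁ h₂ h₃ h₄ k₁ k₂ k₃ k₄, ψ h₁ k₁ + ψ h₂ k₂ = ψ h₃ k₃ + ψ h₄ k₄ →
    h₁ + h₂ = h₃ + h₄ ∧ k₁ + k₂ ≡ k₃ + k₄ [MOD e]

end Pool.Agent.P.MP_6c54ca_co.Od
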