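import Pool.Agent.P.MP_6c54ca_co.HomA

/-! Digit cubes mapped into a group `W` with few collisions. -/

namespace Pool.Agent.P.MP_6c54ca_co.Od

open Finset

theorem card_le_image_add {α γ : Type*} [DecidableEq α] [DecidableEq γ] (S : Finset (α × ℕ))
    (f : α × ℕ → γ) (hf : ∀ s ∈ S, ∀ s' ∈ S, f s = f s' → s.2 = s'.2 → s = s') :
    #S ≤ #(S.image f) + #{q ∈ S ×ˢ S | q.1.2 < q.2.2 ∧ f q.1 = f q.2} := by
  classical
  rw [← card_filter_add_card_filter_not (s := S) (fun s' => ∃ s ∈ S, s.2 < s'.2 ∧ f s = f s'),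
    add_comm]
  apply Nat.add_le_add
  · apply card_le_card_of_injOn f
    · intro s hs
      exact mem_coe.mpr (mem_image_of_mem f (mem_filter.mp (mem_coe.mp hs)).1)
    · intro s hs s' hs' h
      obtain ⟨a1, a2⟩ := mem_filter.mp (mem_coe.mp hs)
      obtain ⟨b1, b2⟩ := mem_filter.mp (mem_coe.mp hs')
      apply hf s a1 s' b1 h
      rcases lt_trichotomy s.2 s'.2 with h1 | h1 | h1
      · exact absurd ⟨s, a1, h1, h⟩ b2
      · exact h1
      · exact absurd ⟨s', b1, h1, h.symm⟩ a2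
  · apply card_le_card_of_surjOn (fun q : (α × ℕ) × (α × ℕ) => q.2)
    intro s' hs'
    obtain ⟨a1, s, a2, a3, a4⟩ := mem_filter.mp (mem_coe.mp hs')
    exact ⟨(s, s'), mem_coe.mpr (mem_filter.mpr ⟨mem_product.mpr ⟨a2, a1⟩, a3, a4⟩), rfl⟩

theorem card_lt_pairs {α : Type*} [DecidableEq α] (C : Finset α) (r : ℕ) :
    #{q ∈ (C ×ˢ range r) ×ˢ (C ×ˢ range r) | q.1.2 < q.2.2} ≤ #C * #C * (r * r - r) := by
  have h1 : #((C ×ˢ C) ×ˢ (range r).offDiag) = #C * #C * (r * r - r) := by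
    rw [card_product, card_product, offDiag_card, card_range]
  rw [← h1]
  apply card_le_card_of_injOn (fun q => ((q.1.1, q.2.1), (q.1.2, q.2.2)))
  · intro q hq
    obtain ⟨a1, a2⟩ := mem_filter.mp (mem_coe.mp hq)
    simp only [mem_product] at a1
    simp only [coe_product, coe_offDiag, Set.mem_prod, mem_coe, Set.mem_offDiag]
    exact ⟨⟨a1.1.1, a1.2.1⟩, a1.1.2, a1.2.2, a2.ne⟩
  · intro q _ q' _ h
    simp only [Prod.mk.injEq] at h
    exact Prod.ext (Prod.ext h.1.1 h.2.1) (Prod.ext h.1.2 h.2.2)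

theorem good_shift {W : Type*} [AddCommGroup W] [Fintype W] [DecidableEq W] (r : ℕ)
    (hr : ∀ k, 0 < k → k < r → Function.Injective fun w : W => k • w) (C : Finset W) :
    ∃ w : W, #C * r * Fintype.card W ≤
      #((C ×ˢ range r).image fun s => s.1 + s.2 • w) * Fintype.card W
        + #C * #C * (r * r - r) := by
  set S := C ×ˢ range r with hS
  set Q := {q ∈ S ×ˢ S | q.1.2 < q.2.2} with hQ
  have hsum : ∑ w : W, #{q ∈ Q | q.1.1 + q.1.2 • w = q.2.1 + q.2.2 • w} ≤ #Q := by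
    simp_rw [card_filter]
    rw [sum_comm, card_eq_sum_ones Q]
    apply sum_le_sum
    intro q hq
    rw [← card_filter, card_le_one]
    intro w hw w' hw'
    have a1 := (mem_filter.mp hw).2
    have a2 := (mem_filter.mp hw').2
    obtain ⟨b1, b2⟩ := mem_filter.mp hq
    have b3 : q.2.2 < r := mem_range.mp (mem_product.mp (mem_product.mp b1).2).2
    obtain ⟨k, hk⟩ := Nat.exists_eq_add_of_lt b2
    apply hr (k + 1) (by omega) (by omega)
    rw [hk, add_assoc, add_nsmul] at a1 a2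
    show (k + 1) • w = (k + 1) • w'
    have c1 : (k + 1) • w = q.1.1 - q.2.1 := by
      rw [eq_sub_iff_add_eq]
      apply add_right_cancel (b := q.1.2 • w)
      rw [a1]; abel
    have c2 : (k + 1) • w' = q.1.1 - q.2.1 := by
      rw [eq_sub_iff_add_eq]
      apply add_right_cancel (b := q.1.2 • w')
      rw [a2]; abel
    rw [c1, c2]
  have hex : ∃ w ∈ (univ : Finset W),
      Fintype.card W * #{q ∈ Q | q.1.1 + q.1.2 • w = q.2.1 + q.2.2 • w} ≤ #Q := by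
    apply exists_le_of_sum_le univ_nonempty
    rw [← mul_sum, sum_const, smul_eq_mul, card_univ]
    exact Nat.mul_le_mul_left _ hsum
  obtain ⟨w, -, hw⟩ := hex
  refine ⟨w, ?_⟩
  have h1 := card_le_image_add S (fun s => s.1 + s.2 • w) (by
    intro s _ s' _ h h2
    rw [h2] at h
    exact Prod.ext (add_right_cancel h) h2)
  rw [← filter_filter] at h1
  have h2 : #S = #C * r := by rw [hS, card_product, card_range]
  have h3 := card_lt_pairs C r
  rw [← hS, ← hQ] at h3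
  rw [← hQ, h2] at h1
  calc #C * r * Fintype.card W
      ≤ (#(S.image fun s => s.1 + s.2 • w)
          + #{q ∈ Q | q.1.1 + q.1.2 • w = q.2.1 + q.2.2 • w}) * Fintype.card W :=
        Nat.mul_le_mul_right _ h1
    _ ≤ _ := by
        rw [add_mul]
        apply Nat.add_le_add_left
        rw [mul_comm]
        exact hw.trans h3

/-- `H × [0, M/2)` contains a Freiman copy of `V × C` with `C ⊆ W` of size about `P` -/
def St (V W H : Type*) [AddCommGroup V] [AddCommGroup W] [Fintype W] [AddCommGroup H]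
    (P M : ℕ) : Prop :=
  ∃ (C : Finset W) (β : V → W → H) (n : W → ℕ),
    P * Fintype.card W ≤ #C * Fintype.card W + P * P ∧ #C ≤ P ∧ (∀ c ∈ C, 2 * n c + 1 ≤ M) ∧
    ∀ v₁ v₂ v₃ v₄, ∀ c₁ ∈ C, ∀ c₂ ∈ C, ∀ c₃ ∈ C, ∀ c₄ ∈ C,
      β v₁ c₁ + β v₂ c₂ = β v₃ c₃ + β v₄ c₄ → n c₁ + n c₂ = n c₃ + n c₄ →
      v₁ + v₂ = v₃ + v₄ ∧ c₁ + c₂ = c₃ + c₄

variable {V W H : Type*} [AddCommGroup V] [AddCommGroup W] [Fintype W] [AddCommGroup H]

theorem St.digit {P M : ℕ} (t : ℕ)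
    (hr : ∀ k, 0 < k → k < t + 1 → Function.Injective fun w : W => k • w)
    (h : St V W H P M) : St V W H (P * (t + 1)) (M * (2 * t + 1)) := by
  classical
  obtain ⟨C, β, n, h1, h2, h3, h4⟩ := h
  obtain ⟨w, hw⟩ := good_shift (t + 1) hr C
  set C' := (C ×ˢ range (t + 1)).image fun s => s.1 + s.2 • w with hC'
  have hrep : ∀ x : W, ∃ s : W × ℕ, x ∈ C' → s.1 ∈ C ∧ s.2 ≤ t ∧ s.1 + s.2 • w = x := by
    intro x
    by_cases hx : x ∈ C'
    · obtain ⟨s, hs, e⟩ := mem_image.mp hx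
      obtain ⟨a1, a2⟩ := mem_product.mp hs
      exact ⟨s, fun _ => ⟨a1, Nat.lt_succ_iff.mp (mem_range.mp a2), e⟩⟩
    · exact ⟨(0, 0), fun h => absurd h hx⟩
  choose ρ hρ using hrep
  refine ⟨C', fun v x => β v (ρ x).1, fun x => n (ρ x).1 + (ρ x).2 * M, ?_, ?_, ?_, ?_⟩
  · have e : (t + 1) * (t + 1) - (t + 1) = t * (t + 1) := by
      rw [add_mul t 1, one_mul, Nat.add_sub_cancel]
    rw [e] at hw
    have a1 : #C * #C * (t * (t + 1)) ≤ P * P * (t * (t + 1)) :=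
      Nat.mul_le_mul_right _ (Nat.mul_le_mul h2 h2)
    have a2 := Nat.mul_le_mul_right (t + 1) h1
    nlinarith
  · calc #C' ≤ #(C ×ˢ range (t + 1)) := card_image_le
      _ = #C * (t + 1) := by rw [card_product, card_range]
      _ ≤ P * (t + 1) := Nat.mul_le_mul_right _ h2
  · intro c hc
    obtain ⟨a1, a2, -⟩ := hρ c hc
    have a3 := h3 _ a1
    have a4 : (ρ c).2 * M ≤ t * M := Nat.mul_le_mul_right _ a2
    show 2 * (n (ρ c).1 + (ρ c).2 * M) + 1 ≤ M * (2 * t + 1)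
    nlinarith
  · intro v₁ v₂ v₃ v₄ c₁ hc₁ c₂ hc₂ c₃ hc₃ c₄ hc₄ hb hn
    obtain ⟨a1, -, e1⟩ := hρ c₁ hc₁
    obtain ⟨a2, -, e2⟩ := hρ c₂ hc₂
    obtain ⟨a3, -, e3⟩ := hρ c₃ hc₃
    obtain ⟨a4, -, e4⟩ := hρ c₄ hc₄
    have b1 := h3 _ a1
    have b2 := h3 _ a2
    have b3 := h3 _ a3
    have b4 := h3 _ a4
    obtain ⟨f1, f2⟩ := split_digits (a := n (ρ c₁).1 + n (ρ c₂).1) (a' := n (ρ c₃).1 + n (ρ c₄).1)
      (b := (ρ c₁).2 + (ρ c₂).2) (b' := (ρ c₃).2 + (ρ c₄).2) (M := M) (by omega) (by omega)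
      (by rw [add_mul, add_mul]; beta_reduce at hn; omega)
    obtain ⟨g1, g2⟩ := h4 v₁ v₂ v₃ v₄ _ a1 _ a2 _ a3 _ a4 hb f1
    refine ⟨g1, ?_⟩
    calc c₁ + c₂ = ((ρ c₁).1 + (ρ c₂).1) + ((ρ c₁).2 + (ρ c₂).2) • w := by
          rw [add_nsmul]; nth_rw 1 [← e1, ← e2]; abel
      _ = ((ρ c₃).1 + (ρ c₄).1) + ((ρ c₃).2 + (ρ c₄).2) • w := by rw [g2, f2]
      _ = c₃ + c₄ := by rw [add_nsmul]; nth_rw 3 [← e3, ← e4]; abel

theorem St.close {G : Type*} [AddCommGroup G] {P M p m : ℕ} [NeZero p] (hE : Ext G H (p * m))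
    (hM : M ≤ m) (hm : 0 < m) (h : St V W H P M) : St (V × ZMod p) W G P 1 := by
  obtain ⟨ψ, hψ⟩ := hE
  obtain ⟨C, β, n, h1, h2, h3, h4⟩ := h
  refine ⟨C, fun v c => ψ (β v.1 c) (n c + v.2.val * m), fun _ => 0, h1, h2, fun _ _ => le_rfl, ?_⟩
  intro v₁ v₂ v₃ v₄ c₁ hc₁ c₂ hc₂ c₃ hc₃ c₄ hc₄ hb _
  obtain ⟨a1, a2⟩ := hψ _ _ _ _ _ _ _ _ hb
  have b1 := h3 _ hc₁
  have b2 := h3 _ hc₂
  have b3 := h3 _ hc₃
  have b4 := h3 _ hc₄
  have a3 : n c₁ + n c₂ + (v₁.2.val + v₂.2.val) * m ≡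
      n c₃ + n c₄ + (v₃.2.val + v₄.2.val) * m [MOD p * m] := by
    convert a2 using 1 <;> ring
  have a4 : n c₁ + n c₂ = n c₃ + n c₄ := by
    have a5 := a3.of_mul_left p
    unfold Nat.ModEq at a5
    rw [Nat.add_mul_mod_self_right, Nat.add_mul_mod_self_right, Nat.mod_eq_of_lt (by omega),
      Nat.mod_eq_of_lt (by omega)] at a5
    exact a5
  rw [a4] at a3
  have a6 := Nat.ModEq.mul_right_cancel' hm.ne' (Nat.ModEq.add_left_cancel' _ a3)
  have a7 := (ZMod.natCast_eq_natCast_iff _ _ _).mpr a6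
  simp only [Nat.cast_add, ZMod.natCast_val, ZMod.cast_id', id_eq] at a7
  obtain ⟨g1, g2⟩ := h4 _ _ _ _ _ hc₁ _ hc₂ _ hc₃ _ hc₄ a1 a4
  exact ⟨Prod.ext g1 a7, g2⟩

theorem St.digits {p P M : ℕ}
    (hW : ∀ k, 0 < k → k < p → Function.Injective fun w : W => k • w) (h : St V W H P M)
    (ts : List ℕ) (hts : ∀ t ∈ ts, 1 ≤ t ∧ t ≤ p) :
    St V W H (P * ts.prod) (M * (ts.map fun t => 2 * t - 1).prod) := by
  induction ts with
  | nil => simpa using h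
  | cons t ts ih =>
    obtain ⟨h1, h2⟩ := hts t (by simp)
    obtain ⟨s, rfl⟩ := Nat.exists_eq_add_of_le' h1
    have h3 := (ih fun t ht => hts t (by simp [ht])).digit s
      (fun k a1 a2 => hW k a1 (lt_of_lt_of_le a2 h2))
    have e : 2 * (s + 1) - 1 = 2 * s + 1 := by omega
    simp only [List.prod_cons, List.map_cons, e]
    convert h3 using 1 <;> ring

end Pool.Agent.P.MP_6c54ca_co.Od
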