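import Pool.Agent.P.MP_6c54ca_co.HomB

/-! The model over the field with `p` elements; the groups `(ℤ/k)^r`. -/

namespace Pool.Agent.P.MP_6c54ca_co.Od

open Finset

def FM (p : ℕ) (G : Type*) [AddCommGroup G] (a P : ℕ) : Prop :=
  ∃ (V : Type) (_ : AddCommGroup V) (_ : Module (ZMod p) V) (_ : Fintype V),
    Fintype.card V = a ∧
    ∀ (W : Type) [AddCommGroup W] [Fintype W],
      (∀ k, 0 < k → k < p → Function.Injective fun w : W => k • w) → St V W G P 1

theorem fm_one (p : ℕ) (G : Type*) [AddCommGroup G] : FM p G 1 1 := by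
  refine ⟨PUnit, inferInstance, inferInstance, inferInstance, by simp, fun W _ _ _ => ?_⟩
  refine ⟨{0}, fun _ _ => 0, fun _ => 0, by simp, by simp, by simp, ?_⟩
  intro v₁ v₂ v₃ v₄ c₁ hc₁ c₂ hc₂ c₃ hc₃ c₄ hc₄ _ _
  simp only [mem_singleton] at hc₁ hc₂ hc₃ hc₄
  exact ⟨rfl, by rw [hc₁, hc₂, hc₃, hc₄]⟩

theorem FM.step {G H : Type*} [AddCommGroup G] [AddCommGroup H] {p m a P : ℕ} [NeZero p]
    (hE : Ext G H (p * m)) (hm : 0 < m) (ts : List ℕ) (hts : ∀ t ∈ ts, 1 ≤ t ∧ t ≤ p)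
    (hk : (ts.map fun t => 2 * t - 1).prod ≤ m) (h : FM p H a P) :
    FM p G (a * p) (P * ts.prod) := by
  obtain ⟨V, _, _, _, h1, h2⟩ := h
  refine ⟨V × ZMod p, inferInstance, inferInstance, inferInstance, by simp [h1],
    fun W _ _ hW => ?_⟩
  exact ((h2 W hW).digits hW ts hts).close hE (by simpa using hk) hm

theorem fm_sidon {G : Type*} [AddCommGroup G] {p a P : ℕ} (hp : p.Prime) (hp2 : p ≠ 2)
    (hP : 0 < P) (h : FM p G a P) : ∃ A : Finset G, Sd A ∧ a * P ≤ 8 * p ^ 2 * #A ^ 2 := by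
  classical
  have := Fact.mk hp
  obtain ⟨V, _, _, _, h1, h2⟩ := h
  set v := Module.finrank (ZMod p) V with hv
  have ha : a = p ^ v := by rw [← h1, Module.card_eq_pow_finrank (K := ZMod p), ZMod.card]
  obtain ⟨j, m, hj1, hj2, hm⟩ : ∃ j m, 2 * P ≤ p ^ j ∧ p ^ j ≤ 2 * P * p ^ 2 ∧ v + j = m + m := by
    have a1 : 2 * P ≤ p ^ Nat.clog p (2 * P) := Nat.le_pow_clog hp.one_lt _
    have a2 : p ^ (Nat.clog p (2 * P)).pred < 2 * P :=
      Nat.pow_pred_clog_lt_self hp.one_lt (by omega)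
    have a3 : 0 < Nat.clog p (2 * P) := Nat.clog_pos hp.one_lt (by omega)
    obtain ⟨i, hi⟩ : ∃ i, Nat.clog p (2 * P) = i + 1 := ⟨_, (Nat.succ_pred_eq_of_pos a3).symm⟩
    rw [hi] at a1 a2
    simp only [Nat.pred_succ] at a2
    have a4 : p ^ (i + 2) ≤ 2 * P * p ^ 2 := by
      rw [pow_add]; exact Nat.mul_le_mul_right _ a2.le
    have a5 : p ^ (i + 1) ≤ p ^ (i + 2) := Nat.pow_le_pow_right hp.pos (by omega)
    rcases Nat.even_or_odd' (v + i) with ⟨m, h | h⟩
    · exact ⟨i + 2, m + 1, a1.trans a5, a4, by omega⟩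
    · exact ⟨i + 1, m + 1, a1, a5.trans a4, by omega⟩
  have hj0 : j ≠ 0 := by
    rintro rfl
    simp at hj1; omega
  have hm0 : m ≠ 0 := by omega
  let W := Fin j → ZMod p
  have hW : Fintype.card W = p ^ j := by simp [W]
  obtain ⟨C, β, n, c1, c2, c3, c4⟩ := h2 W (by
    intro k a1 a2 x y h
    have a3 : (k : ZMod p) ≠ 0 := fun a4 =>
      absurd (Nat.le_of_dvd a1 ((ZMod.natCast_eq_zero_iff k p).mp a4)) (by omega)
    have h' : k • x = k • y := h
    rw [← Nat.cast_smul_eq_nsmul (ZMod p), ← Nat.cast_smul_eq_nsmul (ZMod p)] at h'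
    exact smul_right_injective W a3 h')
  let K := GaloisField p m
  let _ : Fintype K := Fintype.ofFinite K
  have hK : Fintype.card K = p ^ m := by rw [← Nat.card_eq_fintype_card, GaloisField.card p m hm0]
  have h2' : (2 : K) ≠ 0 := by
    intro h
    have h3 : ((2 : ℕ) : K) = 0 := by exact_mod_cast h
    have h4 := (CharP.cast_eq_zero_iff K p 2).mp h3
    exact hp2 ((Nat.prime_dvd_prime_iff_eq hp Nat.prime_two).mp h4)
  obtain ⟨T, hT, hc⟩ := parabola K h2'
  have : Module.Finite (ZMod p) V := Module.Finite.of_finite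
  let e : (K × K) ≃ₗ[ZMod p] (V × W) := LinearEquiv.ofFinrankEq _ _ (by
    rw [Module.finrank_prod, Module.finrank_prod, GaloisField.finrank p hm0, ← hv]
    simp [W, hm])
  obtain ⟨T', hT', hc'⟩ := pull0 e T (fun x _ y _ z _ w _ h => e.injective (by
    rw [map_add, map_add, h])) hT
  obtain ⟨A, hA, hA'⟩ := pull (fun s : V × W => β s.1 s.2) (univ ×ˢ C) T' (by
    intro x hx y hy z hz w hw h
    have b1 := (mem_product.mp hx).2
    have b2 := (mem_product.mp hy).2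
    have b3 := (mem_product.mp hz).2
    have b4 := (mem_product.mp hw).2
    have d1 := c3 _ b1
    have d2 := c3 _ b2
    have d3 := c3 _ b3
    have d4 := c3 _ b4
    obtain ⟨g1, g2⟩ := c4 _ _ _ _ _ b1 _ b2 _ b3 _ b4 h (by omega)
    exact Prod.ext g1 g2) hT'
  refine ⟨A, hA, ?_⟩
  rw [hc', hc, hK, card_product, card_univ, Fintype.card_prod, h1, hW] at hA'
  rw [hW] at c1
  have hq : p ^ m * p ^ m = a * p ^ j := by rw [ha, ← pow_add, ← pow_add, hm]
  have ha0 : 0 < a := ha ▸ pow_pos hp.pos _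
  have hw0 : 0 < p ^ j := pow_pos hp.pos _
  generalize p ^ m = q at hA' hq
  generalize p ^ j = w at *
  generalize p ^ 2 = s at *
  generalize #A = x at *
  generalize #C = c at *
  have e1 : q * c ≤ w * x := by
    apply Nat.le_of_mul_le_mul_left _ ha0
    calc a * (q * c) = q * (a * c) := by ring
      _ ≤ a * w * x := hA'
      _ = a * (w * x) := by ring
  have e2 : P ≤ 2 * c := by
    apply Nat.le_of_mul_le_mul_right _ hw0
    have := Nat.mul_le_mul_left P hj1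
    nlinarith
  have e3 : a * c ^ 2 ≤ w * x ^ 2 := by
    apply Nat.le_of_mul_le_mul_left _ hw0
    calc w * (a * c ^ 2) = (q * c) * (q * c) := by
          rw [show q * c * (q * c) = (q * q) * c ^ 2 by ring, hq]; ring
      _ ≤ (w * x) * (w * x) := Nat.mul_le_mul e1 e1
      _ = w * (w * x ^ 2) := by ring
  apply Nat.le_of_mul_le_mul_left _ hP
  calc P * (a * P) = a * (P * P) := by ring
    _ ≤ a * ((2 * c) * (2 * c)) := Nat.mul_le_mul_left _ (Nat.mul_le_mul e2 e2)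
    _ = 4 * (a * c ^ 2) := by ring
    _ ≤ 4 * (w * x ^ 2) := Nat.mul_le_mul_left _ e3
    _ ≤ 4 * ((2 * P * s) * x ^ 2) := Nat.mul_le_mul_left _ (Nat.mul_le_mul_right _ hj2)
    _ = P * (8 * s * x ^ 2) := by ring

theorem ext_succ (k r : ℕ) : Ext (Fin (r + 1) → ZMod k) (Fin r → ZMod k) k := by
  refine ⟨fun h n => Fin.cons (n : ZMod k) h, fun h₁ h₂ h₃ h₄ k₁ k₂ k₃ k₄ h => ⟨?_, ?_⟩⟩
  · funext i
    simpa using congrFun h i.succ
  · apply (ZMod.natCast_eq_natCast_iff _ _ _).mp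
    simpa using congrFun h 0

theorem main {p m : ℕ} (hp : p.Prime) (hp2 : p ≠ 2) (ts : List ℕ) (hts : ∀ t ∈ ts, 1 ≤ t ∧ t ≤ p)
    (hm : 0 < m) (hk : (ts.map fun t => 2 * t - 1).prod ≤ m) (r : ℕ) :
    ∃ A : Finset (Fin r → ZMod (p * m)), Sd A ∧ (p * ts.prod) ^ r ≤ 8 * p ^ 2 * #A ^ 2 := by
  have : NeZero p := ⟨hp.ne_zero⟩
  have h1 : FM p (Fin r → ZMod (p * m)) (p ^ r) (ts.prod ^ r) := by
    induction r with
    | zero => exact fm_one _ _
    | succ r ih => exact ih.step (ext_succ _ r) hm ts hts hk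
  rw [mul_pow]
  exact fm_sidon hp hp2 (pow_pos (List.prod_pos fun t ht => (hts t ht).1) r) h1

end Pool.Agent.P.MP_6c54ca_co.Od
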