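import Mathlib

set_option autoImplicit false

namespace Pool.Agent.P.MP_6c54ca_co

/-- Sidon sets. -/
def Sid {G : Type*} [AddCommGroup G] (A : Finset G) : Prop :=
  ∀ a ∈ A, ∀ b ∈ A, ∀ c ∈ A, ∀ d ∈ A, a + b = c + d → (a = c ∧ b = d) ∨ (a = d ∧ b = c)

/-- The group element coded by an index. -/
def pos (k i : ℕ) : ZMod k × ZMod k := (((i / (2 * k) : ℕ) : ZMod k), ((i % (2 * k) : ℕ) : ZMod k))

def bit (M i : ℕ) : Bool := Nat.beq (Nat.land 1 (Nat.shiftRight M i)) 1

def per (k kk M : ℕ) : ℕ :=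
  Nat.lor (Nat.lor M (Nat.shiftLeft M k)) (Nat.shiftLeft (Nat.lor M (Nat.shiftLeft M k)) kk)

noncomputable def filt (F : ℕ) (cont : List ℕ → ℕ → Bool) (l : List ℕ) : List ℕ → ℕ → Bool :=
  List.rec (motive := fun _ => List ℕ → ℕ → Bool) cont
    (fun y _ ih acc n => cond (bit F y) (ih acc n) (ih (y :: acc) (Nat.succ n))) l

noncomputable def ext (k kk B : ℕ) (chk : Bool) (x pd pn ps pl : ℕ) (l : List ℕ)
    (cont : ℕ → ℕ → ℕ → ℕ → List ℕ → ℕ → Bool) : Bool :=
  let j := Nat.sub (Nat.add kk k) x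
  let pd' := Nat.lor pd (per k kk (Nat.shiftLeft 1 x))
  let ns := Nat.land (Nat.shiftRight pd' j) B
  cond (cond chk (Nat.beq (Nat.land ns ps) 0) true)
    (let pn' := Nat.lor pn (per k kk (Nat.land (Nat.shiftRight (per k kk 1) x) B))
     let ps' := Nat.lor ps (per k kk ns)
     let pl' := Nat.lor pl (per k kk
       (Nat.land (Nat.lor (Nat.shiftRight pn' j) (Nat.shiftRight pd' x)) B))
     filt (Nat.lor (Nat.shiftRight ps' x) (Nat.shiftRight pl' j)) (cont pd' pn' ps' pl') l [] 0)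
    true

noncomputable def go (k kk B need : ℕ) : ℕ → ℕ → ℕ → ℕ → List ℕ → ℕ → Bool :=
  Nat.rec (motive := fun _ => ℕ → ℕ → ℕ → ℕ → List ℕ → ℕ → Bool) (fun _ _ _ _ _ _ => false)
    (fun m ih pd pn ps pl l => List.rec (motive := fun _ => ℕ → Bool) (fun _ => true)
      (fun x t iht n => cond (Nat.ble n m) true
        (cond (ext k kk B true x pd pn ps pl t ih) (iht (Nat.pred n)) false)) l) need

noncomputable def pre (k kk B need : ℕ) (L : List ℕ) : ℕ → ℕ → ℕ → ℕ → List ℕ → ℕ → Bool :=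
  List.rec (motive := fun _ => ℕ → ℕ → ℕ → ℕ → List ℕ → ℕ → Bool) (go k kk B need)
    (fun x _ ih pd pn ps pl l _ => ext k kk B false x pd pn ps pl l ih) L

/-- The `j`-th pattern coded in `P`. -/
noncomputable def patt (P j : ℕ) : List ℕ :=
  Nat.rec (motive := fun _ => ℕ → List ℕ) (fun _ => [])
    (fun _ ih r => Nat.mod r 1024 :: ih (Nat.div r 1024))
    (Nat.mod (Nat.shiftRight P (Nat.mul 100 j)) 16) (Nat.shiftRight P (Nat.add (Nat.mul 100 j) 4))

noncomputable def force (x : ℕ) (f : ℕ → Bool) : Bool :=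
  Nat.rec (f 0) (fun n _ => f (Nat.succ n)) x

noncomputable def lall (f : ℕ → Bool) (l : List ℕ) : Bool :=
  List.rec true (fun x _ ih => cond (force x f) ih false) l

noncomputable def msk (L : List ℕ) : ℕ :=
  List.rec 0 (fun x _ ih => Nat.lor ih (Nat.shiftLeft 1 x)) L

def dig (w i : ℕ) : ℕ := Nat.land (Nat.shiftRight w (Nat.mul 4 i)) 15

def lin (k a b t p : ℕ) : ℕ :=
  Nat.mod (Nat.add (Nat.add (Nat.mul a (Nat.div p (Nat.mul 2 k)))
    (Nat.mul b (Nat.mod p (Nat.mul 2 k)))) t) k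

noncomputable def wit (k P j T w : ℕ) : Bool :=
  force (dig w 0) fun a => force (dig w 1) fun b => force (dig w 2) fun c =>
  force (dig w 3) fun d => force (dig w 4) fun s => force (dig w 5) fun t =>
  force (dig w 6) fun i => force (Nat.pred (Nat.shiftRight w 28)) fun j' =>
  cond (Nat.blt j' j)
    (cond (Nat.beq (Nat.mod (Nat.mul (Nat.mul a d) i) k)
        (Nat.mod (Nat.add 1 (Nat.mul (Nat.mul b c) i)) k))
      (lall (fun p => bit T (Nat.add (Nat.mul (lin k a b s p) (Nat.mul 2 k)) (lin k c d t p)))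
        (patt P j')) false) false

def idx (k m : ℕ) : ℕ := Nat.add (Nat.mul (Nat.div m k) (Nat.mul 2 k)) (Nat.mod m k)

noncomputable def cands (k P j T W : ℕ) (cont : List ℕ → ℕ → Bool) (m : ℕ) :
    List ℕ → ℕ → Bool :=
  Nat.rec (motive := fun _ => List ℕ → ℕ → Bool) cont
    (fun m ih acc n => force (Nat.mod (Nat.shiftRight W (Nat.mul 40 m)) 1099511627776) fun w =>
      force (idx k m) fun y => cond (Nat.beq w 0) (ih (y :: acc) (Nat.succ n))
        (cond (wit k P j (Nat.lor T (Nat.shiftLeft 1 y)) w) (ih acc n) false)) m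

noncomputable def chk (k B P j W : ℕ) : Bool :=
  cond (lall (fun x => cond (Nat.blt (Nat.mod x (Nat.mul 2 k)) k)
      (Nat.blt (Nat.div x (Nat.mul 2 k)) k) false) (patt P j))
    (force (Nat.mul (Nat.mul 2 k) k) fun kk => cands k P j (msk (patt P j)) W
      (pre k kk B (Nat.sub k (patt P j).length) (patt P j) 0 0 0 0) (Nat.mul k k) [] 0) false

noncomputable def chks (k B P : ℕ) (Ws : List ℕ) : ℕ → Bool :=
  List.rec (motive := fun _ => ℕ → Bool) (fun _ => true)
    (fun W _ ih j => cond (chk k B P j W) (ih (Nat.succ j)) false) Ws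

end Pool.Agent.P.MP_6c54ca_co
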