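import Mathlib

/-! Counting differences of a Sidon set along a homomorphism. -/

set_option linter.unusedSectionVars false

namespace Pool.Agent.P.MP_6c54ca_co.Six

open Finset

variable {G H : Type} [AddCommGroup G] [Fintype G] [DecidableEq G] [AddCommGroup H] [Fintype H]
  [DecidableEq H]

def Sid (A : Finset G) : Prop :=
  ∀ a ∈ A, ∀ b ∈ A, ∀ c ∈ A, ∀ d ∈ A, a + b = c + d → (a = c ∧ b = d) ∨ (a = d ∧ b = c)

/-- the elements that are not a difference of two distinct elements of `A` -/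
def Lv (A : Finset G) : Finset G := univ \ A.offDiag.image fun p => p.1 - p.2

theorem inj_diff {A : Finset G} (hA : Sid A) :
    Set.InjOn (fun p : G × G => p.1 - p.2) (A.offDiag : Set (G × G)) := by
  intro p hp q hq h
  simp only [coe_offDiag, Set.mem_offDiag, mem_coe] at hp hq
  have h1 : p.1 + q.2 = q.1 + p.2 := by
    have h' : p.1 - p.2 = q.1 - q.2 := h
    exact sub_eq_sub_iff_add_eq_add.mp h'
  rcases hA _ hp.1 _ hq.2.1 _ hq.1 _ hp.2.1 h1 with h2 | h2
  · exact Prod.ext h2.1 h2.2.symm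
  · exact absurd h2.1 hp.2.2

theorem card_Lv {A : Finset G} (hA : Sid A) :
    #(Lv A) + (#A * #A - #A) = Fintype.card G := by
  rw [← offDiag_card, ← card_image_of_injOn (inj_diff hA), Lv,
    card_sdiff_add_card_eq_card (subset_univ _), card_univ]

theorem neg_mem_Lv {A : Finset G} {n : G} (h : n ∈ Lv A) : -n ∈ Lv A := by
  simp only [Lv, mem_sdiff, mem_univ, true_and, mem_image, mem_offDiag, not_exists, not_and] at h ⊢
  intro p hp e
  apply h (p.2, p.1) ⟨hp.2.1, hp.1, hp.2.2.symm⟩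
  show p.2 - p.1 = n
  rw [← neg_sub, e, neg_neg]

theorem tors_mem_Lv {A : Finset G} (hA : Sid A) {n : G} (h : n + n = 0) : n ∈ Lv A := by
  simp only [Lv, mem_sdiff, mem_univ, true_and, mem_image, mem_offDiag, not_exists, not_and]
  intro p hp e
  have h1 : p.1 + p.1 = p.2 + p.2 := by
    have h2 : p.1 = n + p.2 := by rw [← e]; abel
    rw [h2]
    calc n + p.2 + (n + p.2) = (n + n) + (p.2 + p.2) := by abel
      _ = p.2 + p.2 := by rw [h, zero_add]
  rcases hA _ hp.1 _ hp.1 _ hp.2.1 _ hp.2.1 h1 with h2 | h2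
  · exact hp.2.2 h2.1
  · exact hp.2.2 h2.1

theorem pair_count {A : Finset G} (hA : Sid A) (f : G →+ H) {h : H} (hh : h ≠ 0) :
    ∑ y, #{a ∈ A | f a = y + h} * #{a ∈ A | f a = y} + #{n ∈ Lv A | f n = h}
      = #{g : G | f g = h} := by
  have e1 : #{g ∈ A.offDiag.image (fun p => p.1 - p.2) | f g = h}
      = #{p ∈ A.offDiag | f (p.1 - p.2) = h} := by
    rw [filter_image]
    apply card_image_of_injOn
    apply (inj_diff hA).mono
    intro p hp
    exact mem_coe.mpr (mem_filter.mp (mem_coe.mp hp)).1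
  have e2 : #{p ∈ A.offDiag | f (p.1 - p.2) = h}
      = ∑ y, #{a ∈ A | f a = y + h} * #{a ∈ A | f a = y} := by
    rw [card_eq_sum_card_fiberwise (f := fun p : G × G => f p.2) (t := univ)
      (fun _ _ => mem_coe.mpr (mem_univ _))]
    refine sum_congr rfl fun y _ => ?_
    rw [← card_product]
    congr 1
    ext p
    simp only [mem_filter, mem_offDiag, mem_product, map_sub]
    constructor
    · rintro ⟨⟨⟨h1, h2, -⟩, h3⟩, h4⟩
      exact ⟨⟨h1, by rw [← h3, ← h4]; abel⟩, h2, h4⟩
    · rintro ⟨⟨h1, h2⟩, h3, h4⟩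
      refine ⟨⟨⟨h1, h3, ?_⟩, by rw [h2, h4]; abel⟩, h4⟩
      intro e
      rw [e, h4] at h2
      exact hh (by simpa using h2)
  rw [← e2, ← e1, Lv, ← card_union_of_disjoint, ← filter_union, union_sdiff_of_subset (subset_univ _)]
  exact disjoint_filter_filter disjoint_sdiff

theorem card_fiber (f : G →+ H) (hf : Function.Surjective f) (h : H) :
    #{g : G | f g = h} * Fintype.card H = Fintype.card G := by
  have e : ∀ y : H, #{g : G | f g = y} = #{g : G | f g = h} := fun y =>
    AddMonoidHom.card_fiber_eq_of_mem_range f (hf y) (hf h)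
  have := card_eq_sum_card_fiberwise (f := f) (s := (univ : Finset G)) (t := univ)
    (fun _ _ => mem_coe.mpr (mem_univ _))
  rw [sum_congr rfl fun y _ => e y, sum_const, card_univ, card_univ, smul_eq_mul] at this
  rw [this, mul_comm]

theorem even_sym (S : Finset G) (h1 : ∀ n ∈ S, -n ∈ S) (h2 : ∀ n ∈ S, -n ≠ n) : 2 ∣ #S := by
  have : ∑ _n ∈ S, (1 : ZMod 2) = 0 :=
    sum_involution (fun n _ => -n) (fun _ _ => by decide) (fun n hn _ => h2 n hn)
      (fun n hn => h1 n hn) (fun n _ => neg_neg n)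
  rw [sum_const, nsmul_eq_mul, mul_one] at this
  exact (ZMod.natCast_eq_zero_iff _ _).mp this

end Pool.Agent.P.MP_6c54ca_co.Six
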