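import Pool.Agent.P.MP_6c54ca_co.SixA

/-! No Sidon set of size 36 in the group of exponent 6 and rank 4. -/

set_option linter.unusedSectionVars false
set_option linter.dupNamespace false

namespace Pool.Agent.P.MP_6c54ca_co.Six

open Finset

abbrev P := Fin 4 → ZMod 2
abbrev Q := Fin 4 → ZMod 3
abbrev R := ZMod 3 × ZMod 3 × ZMod 3

/-- the non-differences that do not have order at most two -/
def Lw (A : Finset (P × Q)) : Finset (P × Q) := {n ∈ Lv A | n.2 ≠ 0}

theorem P_add (u : P) : u + u = 0 := by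
  funext i
  have : ∀ x : ZMod 2, x + x = 0 := by decide
  exact this _

theorem Q_neg {v : Q} (h : -v = v) : v = 0 := by
  funext i
  have : ∀ x : ZMod 3, -x = x → x = 0 := by decide
  exact this _ (congrFun h i)

theorem neg_mem_Lw {A : Finset (P × Q)} {n : P × Q} (h : n ∈ Lw A) : -n ∈ Lw A := by
  simp only [Lw, mem_filter] at h ⊢
  exact ⟨neg_mem_Lv h.1, by simpa using h.2⟩

theorem neg_ne_Lw {A : Finset (P × Q)} {n : P × Q} (h : n ∈ Lw A) : -n ≠ n := by
  intro e
  exact (mem_filter.mp h).2 (Q_neg (congrArg Prod.snd e))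

theorem split_Lv {A : Finset (P × Q)} (hA : Sid A) (p : P × Q → Prop) [DecidablePred p] :
    #{n ∈ Lv A | p n} = #{u : P | p (u, 0)} + #{n ∈ Lw A | p n} := by
  rw [← card_filter_add_card_filter_not (s := {n ∈ Lv A | p n}) (fun n => n.2 = 0)]
  congr 1
  · symm
    apply card_nbij (fun u => (u, 0))
    · intro u hu
      simp only [coe_filter, mem_univ, true_and, Set.mem_ofPred_eq, mem_filter, and_true] at hu ⊢
      exact ⟨tors_mem_Lv hA (Prod.ext (P_add u) (by simp)), hu⟩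
    · intro u _ v _ h
      exact congrArg Prod.fst h
    · intro n hn
      simp only [coe_filter, Set.mem_ofPred_eq, mem_filter] at hn
      have e : n = (n.1, 0) := Prod.ext rfl hn.2
      refine ⟨n.1, ?_, e.symm⟩
      simp only [coe_filter, mem_univ, true_and, Set.mem_ofPred_eq]
      rw [← e]; exact hn.1.2
  · congr 1
    ext n
    simp only [Lw, mem_filter]
    tauto

theorem card_Lw {A : Finset (P × Q)} (hA : Sid A) (hc : #A = 36) : #(Lw A) = 20 := by
  have h1 := card_Lv hA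
  have h2 := split_Lv hA (fun _ => True)
  have h3 : Fintype.card (P × Q) = 1296 := by simp [ZMod.card]
  have h4 : Fintype.card P = 16 := by simp [ZMod.card]
  simp only [filter_true, card_univ] at h2
  rw [hc, h3] at h1
  omega

theorem w2 {A : Finset (P × Q)} (hA : Sid A) (hc : #A = 36) (ψ : P →+ ZMod 2)
    (hψ : Function.Surjective ψ) :
    #{n ∈ Lw A | ψ n.1 = 1} = 0 ∨ #{n ∈ Lw A | ψ n.1 = 1} = 10 := by
  let f : P × Q →+ ZMod 2 := ψ.comp (AddMonoidHom.fst P Q)
  have hf : Function.Surjective f := fun y => by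
    obtain ⟨u, hu⟩ := hψ y
    exact ⟨(u, 0), hu⟩
  have h1 := pair_count hA f (h := 1) (by decide)
  have h2 := card_fiber f hf 1
  have h3 := card_fiber ψ hψ 1
  have h4 := split_Lv hA (fun n => f n = 1)
  have h5 : Fintype.card (P × Q) = 1296 := by simp [ZMod.card]
  have h6 : Fintype.card P = 16 := by simp [ZMod.card]
  have h7 : #{n ∈ Lw A | ψ n.1 = 1} ≤ 20 := (card_filter_le _ _).trans (card_Lw hA hc).le
  have h8 := card_eq_sum_card_fiberwise (f := f) (s := A) (t := univ)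
    (fun _ _ => mem_coe.mpr (mem_univ _))
  have u2 : (univ : Finset (ZMod 2)) = {0, 1} := by decide
  have e1 : (0 : ZMod 2) + 1 = 1 := by decide
  have e2 : (1 : ZMod 2) + 1 = 0 := by decide
  rw [u2, sum_pair (by decide)] at h1 h8
  rw [e1, e2] at h1
  rw [ZMod.card] at h2 h3
  have e3 : #{u : P | f (u, 0) = 1} = #{u : P | ψ u = 1} := rfl
  have e4 : #{n ∈ Lw A | f n = 1} = #{n ∈ Lw A | ψ n.1 = 1} := rfl
  rw [e3, e4] at h4
  rw [hc] at h8
  generalize #{a ∈ A | f a = 0} = x at *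
  generalize #{a ∈ A | f a = 1} = y at *
  generalize #{n ∈ Lw A | ψ n.1 = 1} = w at *
  have hx : x ≤ 36 := by omega
  obtain rfl : y = 36 - x := by omega
  have h9 : (36 - x) * x + x * (36 - x) + 8 + w = 648 := by omega
  clear * - h9 h7 hx
  interval_cases x <;> omega

/-- the linear form with coefficient vector `c` -/
def dot2 (c : P) : P →+ ZMod 2 where
  toFun u := c 0 * u 0 + c 1 * u 1 + c 2 * u 2 + c 3 * u 3
  map_zero' := by simp
  map_add' u v := by simp only [Pi.add_apply]; ring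

theorem sep2 : ∀ u v : P, u ≠ 0 → u ≠ v → ∃ c : P,
    c 0 * u 0 + c 1 * u 1 + c 2 * u 2 + c 3 * u 3 = 1 ∧
      c 0 * v 0 + c 1 * v 1 + c 2 * v 2 + c 3 * v 3 = 0 := by
  decide +kernel

theorem surj2 (ψ : P →+ ZMod 2) {u : P} (h : ψ u = 1) : Function.Surjective ψ := by
  intro y
  have : ∀ z : ZMod 2, z = 0 ∨ z = 1 := by decide
  rcases this y with rfl | rfl
  · exact ⟨0, map_zero ψ⟩
  · exact ⟨u, h⟩

theorem one_u {A : Finset (P × Q)} (hA : Sid A) (hc : #A = 36) {n m : P × Q} (hn : n ∈ Lw A)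
    (hm : m ∈ Lw A) (h1 : n.1 ≠ 0) (h2 : m.1 ≠ 0) : n.1 = m.1 := by
  by_contra hne
  obtain ⟨c, hc1, hc2⟩ := sep2 n.1 m.1 h1 hne
  obtain ⟨d, hd1, hd2⟩ := sep2 m.1 n.1 h2 (Ne.symm hne)
  have a1 : dot2 c n.1 = 1 := hc1
  have a2 : dot2 c m.1 = 0 := hc2
  have a3 : dot2 d m.1 = 1 := hd1
  have a4 : dot2 d n.1 = 0 := hd2
  have a5 : (dot2 c + dot2 d) n.1 = 1 := by rw [AddMonoidHom.add_apply, a1, a4, add_zero]
  generalize dot2 c = ψ at *
  generalize dot2 d = χ at *
  have b : ∀ (θ : P →+ ZMod 2) (k : P × Q), k ∈ Lw A → θ k.1 = 1 →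
      #{n ∈ Lw A | θ n.1 = 1} = 10 := by
    intro θ k hk h
    rcases w2 hA hc θ (surj2 θ h) with h0 | h0
    · exact absurd (card_eq_zero.mp h0) (ne_empty_of_mem (mem_filter.mpr ⟨hk, h⟩))
    · exact h0
  have b1 := b ψ n hn a1
  have b2 := b χ m hm a3
  have b3 := b (ψ + χ) n hn a5
  have ev : 2 ∣ #{n ∈ Lw A | ψ n.1 = 1 ∧ χ n.1 = 1} := by
    apply even_sym
    · intro k hk
      have hk' := mem_filter.mp hk
      have : (-k).1 = k.1 := neg_eq_of_add_eq_zero_left (P_add _)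
      exact mem_filter.mpr ⟨neg_mem_Lw hk'.1, by rw [this]; exact hk'.2⟩
    · intro k hk
      exact neg_ne_Lw (mem_filter.mp hk).1
  have key : #{n ∈ Lw A | ψ n.1 = 1} + #{n ∈ Lw A | χ n.1 = 1}
      = #{n ∈ Lw A | (ψ + χ) n.1 = 1} + 2 * #{n ∈ Lw A | ψ n.1 = 1 ∧ χ n.1 = 1} := by
    simp only [card_filter, mul_sum, ← sum_add_distrib, AddMonoidHom.add_apply]
    refine sum_congr rfl fun k _ => ?_
    generalize ψ k.1 = x
    generalize χ k.1 = y
    revert x y
    decide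
  omega

end Pool.Agent.P.MP_6c54ca_co.Six
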