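import Mathlib

/-! Weighted points of the projective plane of order three. -/

namespace Pool.Agent.P.MP_6c54ca_co.Six

theorem arith (z m0 m1 m2 m3 m4 m5 m6 m7 m8 m9 m10 m11 m12 : ℕ)
    (w0 w1 w2 w3 w4 w5 w6 w7 w8 w9 w10 w11 w12 : ℕ) (hz : z ≤ 4)
    (ht : z + 2 * (m0 + m1 + m2 + m3 + m4 + m5 + m6 + m7 + m8 + m9 + m10 + m11 + m12) = 20)
    (b0 : m0 ≤ 6)
    (b1 : m1 ≤ 6)
    (b2 : m2 ≤ 6)
    (b3 : m3 ≤ 6)
    (b4 : m4 ≤ 6)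
    (b5 : m5 ≤ 6)
    (b6 : m6 ≤ 6)
    (b7 : m7 ≤ 6)
    (b8 : m8 ≤ 6)
    (b9 : m9 ≤ 6)
    (b10 : m10 ≤ 6)
    (b11 : m11 ≤ 6)
    (b12 : m12 ≤ 6)
    (e0 : w0 = m0 + m3 + m4 + m5 + m6 + m9 + m10 + m11 + m12)
    (d0 : w0 = 0 ∨ w0 = 3 ∨ w0 = 9)
    (e1 : w1 = m1 + m3 + m4 + m7 + m8 + m9 + m10 + m11 + m12)
    (d1 : w1 = 0 ∨ w1 = 3 ∨ w1 = 9)
    (e2 : w2 = m2 + m5 + m6 + m7 + m8 + m9 + m10 + m11 + m12)
    (d2 : w2 = 0 ∨ w2 = 3 ∨ w2 = 9)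
    (e3 : w3 = m0 + m1 + m3 + m5 + m6 + m7 + m8 + m9 + m10)
    (d3 : w3 = 0 ∨ w3 = 3 ∨ w3 = 9)
    (e4 : w4 = m0 + m1 + m4 + m5 + m6 + m7 + m8 + m11 + m12)
    (d4 : w4 = 0 ∨ w4 = 3 ∨ w4 = 9)
    (e5 : w5 = m0 + m2 + m3 + m4 + m5 + m7 + m8 + m9 + m11)
    (d5 : w5 = 0 ∨ w5 = 3 ∨ w5 = 9)
    (e6 : w6 = m0 + m2 + m3 + m4 + m6 + m7 + m8 + m10 + m12)
    (d6 : w6 = 0 ∨ w6 = 3 ∨ w6 = 9)
    (e7 : w7 = m1 + m2 + m3 + m4 + m5 + m6 + m7 + m9 + m12)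
    (d7 : w7 = 0 ∨ w7 = 3 ∨ w7 = 9)
    (e8 : w8 = m1 + m2 + m3 + m4 + m5 + m6 + m8 + m10 + m11)
    (d8 : w8 = 0 ∨ w8 = 3 ∨ w8 = 9)
    (e9 : w9 = m0 + m1 + m2 + m3 + m5 + m7 + m10 + m11 + m12)
    (d9 : w9 = 0 ∨ w9 = 3 ∨ w9 = 9)
    (e10 : w10 = m0 + m1 + m2 + m3 + m6 + m8 + m9 + m11 + m12)
    (d10 : w10 = 0 ∨ w10 = 3 ∨ w10 = 9)
    (e11 : w11 = m0 + m1 + m2 + m4 + m5 + m8 + m9 + m10 + m12)
    (d11 : w11 = 0 ∨ w11 = 3 ∨ w11 = 9)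
    (e12 : w12 = m0 + m1 + m2 + m4 + m6 + m7 + m9 + m10 + m11)
    (d12 : w12 = 0 ∨ w12 = 3 ∨ w12 = 9) : False := by
  obtain ⟨s, hs⟩ : ∃ s, s = m0 + m1 + m2 + m3 + m4 + m5 + m6 + m7 + m8 + m9 + m10 + m11 + m12 := ⟨_, rfl⟩
  have l0 : w0 + (m1 + m2 + m7 + m8) = s := by clear * - e0 hs; omega
  have l1 : w1 + (m0 + m2 + m5 + m6) = s := by clear * - e1 hs; omega
  have l2 : w2 + (m0 + m1 + m3 + m4) = s := by clear * - e2 hs; omega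
  have l3 : w3 + (m2 + m4 + m11 + m12) = s := by clear * - e3 hs; omega
  have l4 : w4 + (m2 + m3 + m9 + m10) = s := by clear * - e4 hs; omega
  have l5 : w5 + (m1 + m6 + m10 + m12) = s := by clear * - e5 hs; omega
  have l6 : w6 + (m1 + m5 + m9 + m11) = s := by clear * - e6 hs; omega
  have l7 : w7 + (m0 + m8 + m10 + m11) = s := by clear * - e7 hs; omega
  have l8 : w8 + (m0 + m7 + m9 + m12) = s := by clear * - e8 hs; omega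
  have l9 : w9 + (m4 + m6 + m8 + m9) = s := by clear * - e9 hs; omega
  have l10 : w10 + (m4 + m5 + m7 + m10) = s := by clear * - e10 hs; omega
  have l11 : w11 + (m3 + m6 + m7 + m11) = s := by clear * - e11 hs; omega
  have l12 : w12 + (m3 + m5 + m8 + m12) = s := by clear * - e12 hs; omega
  have q0 : w1 + w2 + w7 + w8 + 3 * m0 = 3 * s := by
    clear * - e1 e2 e7 e8 hs; omega
  have q1 : w0 + w2 + w5 + w6 + 3 * m1 = 3 * s := by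
    clear * - e0 e2 e5 e6 hs; omega
  have q2 : w0 + w1 + w3 + w4 + 3 * m2 = 3 * s := by
    clear * - e0 e1 e3 e4 hs; omega
  have q3 : w2 + w4 + w11 + w12 + 3 * m3 = 3 * s := by
    clear * - e2 e4 e11 e12 hs; omega
  have q4 : w2 + w3 + w9 + w10 + 3 * m4 = 3 * s := by
    clear * - e2 e3 e9 e10 hs; omega
  have q5 : w1 + w6 + w10 + w12 + 3 * m5 = 3 * s := by
    clear * - e1 e6 e10 e12 hs; omega
  have q6 : w1 + w5 + w9 + w11 + 3 * m6 = 3 * s := by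
    clear * - e1 e5 e9 e11 hs; omega
  have q7 : w0 + w8 + w10 + w11 + 3 * m7 = 3 * s := by
    clear * - e0 e8 e10 e11 hs; omega
  have q8 : w0 + w7 + w9 + w12 + 3 * m8 = 3 * s := by
    clear * - e0 e7 e9 e12 hs; omega
  have q9 : w4 + w6 + w8 + w9 + 3 * m9 = 3 * s := by
    clear * - e4 e6 e8 e9 hs; omega
  have q10 : w4 + w5 + w7 + w10 + 3 * m10 = 3 * s := by
    clear * - e4 e5 e7 e10 hs; omega
  have q11 : w3 + w6 + w7 + w11 + 3 * m11 = 3 * s := by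
    clear * - e3 e6 e7 e11 hs; omega
  have q12 : w3 + w5 + w8 + w12 + 3 * m12 = 3 * s := by
    clear * - e3 e5 e8 e12 hs; omega
  have hsum : w0 + w1 + w2 + w3 + w4 + w5 + w6 + w7 + w8 + w9 + w10 + w11 + w12 = 9 * s := by
    clear * - e0 e1 e2 e3 e4 e5 e6 e7 e8 e9 e10 e11 e12 hs; omega
  have hc : s = 8 ∨ s = 9 ∨ s = 10 := by clear * - ht hz hs; omega
  clear ht hz e0 e1 e2 e3 e4 e5 e6 e7 e8 e9 e10 e11 e12
  rcases hc with hc | hc | hc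
  · have c0 : w0 ≤ 3 := by clear * - d0 l0 hc; omega
    have c1 : w1 ≤ 3 := by clear * - d1 l1 hc; omega
    have c2 : w2 ≤ 3 := by clear * - d2 l2 hc; omega
    have c3 : w3 ≤ 3 := by clear * - d3 l3 hc; omega
    have c4 : w4 ≤ 3 := by clear * - d4 l4 hc; omega
    have c5 : w5 ≤ 3 := by clear * - d5 l5 hc; omega
    have c6 : w6 ≤ 3 := by clear * - d6 l6 hc; omega
    have c7 : w7 ≤ 3 := by clear * - d7 l7 hc; omega
    have c8 : w8 ≤ 3 := by clear * - d8 l8 hc; omega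
    have c9 : w9 ≤ 3 := by clear * - d9 l9 hc; omega
    have c10 : w10 ≤ 3 := by clear * - d10 l10 hc; omega
    have c11 : w11 ≤ 3 := by clear * - d11 l11 hc; omega
    have c12 : w12 ≤ 3 := by clear * - d12 l12 hc; omega
    clear * - hsum hc c0 c1 c2 c3 c4 c5 c6 c7 c8 c9 c10 c11 c12
    omega
  · have c0 : m0 = 0 ∨ 5 ≤ m0 := by
      clear * - q0 hc d1 l1 d2 l2 d7 l7 d8 l8; omega
    have c1 : m1 = 0 ∨ 5 ≤ m1 := by
      clear * - q1 hc d0 l0 d2 l2 d5 l5 d6 l6; omega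
    have c2 : m2 = 0 ∨ 5 ≤ m2 := by
      clear * - q2 hc d0 l0 d1 l1 d3 l3 d4 l4; omega
    have c3 : m3 = 0 ∨ 5 ≤ m3 := by
      clear * - q3 hc d2 l2 d4 l4 d11 l11 d12 l12; omega
    have c4 : m4 = 0 ∨ 5 ≤ m4 := by
      clear * - q4 hc d2 l2 d3 l3 d9 l9 d10 l10; omega
    have c5 : m5 = 0 ∨ 5 ≤ m5 := by
      clear * - q5 hc d1 l1 d6 l6 d10 l10 d12 l12; omega
    have c6 : m6 = 0 ∨ 5 ≤ m6 := by
      clear * - q6 hc d1 l1 d5 l5 d9 l9 d11 l11; omega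
    have c7 : m7 = 0 ∨ 5 ≤ m7 := by
      clear * - q7 hc d0 l0 d8 l8 d10 l10 d11 l11; omega
    have c8 : m8 = 0 ∨ 5 ≤ m8 := by
      clear * - q8 hc d0 l0 d7 l7 d9 l9 d12 l12; omega
    have c9 : m9 = 0 ∨ 5 ≤ m9 := by
      clear * - q9 hc d4 l4 d6 l6 d8 l8 d9 l9; omega
    have c10 : m10 = 0 ∨ 5 ≤ m10 := by
      clear * - q10 hc d4 l4 d5 l5 d7 l7 d10 l10; omega
    have c11 : m11 = 0 ∨ 5 ≤ m11 := by
      clear * - q11 hc d3 l3 d6 l6 d7 l7 d11 l11; omega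
    have c12 : m12 = 0 ∨ 5 ≤ m12 := by
      clear * - q12 hc d3 l3 d5 l5 d8 l8 d12 l12; omega
    clear * - hs hc c0 b0 c1 b1 c2 b2 c3 b3 c4 b4 c5 b5 c6 b6 c7 b7 c8 b8 c9 b9 c10 b10 c11 b11 c12 b12
    omega
  · have c0 : m0 = 0 ∨ m0 = 1 ∨ m0 = 6 := by
      clear * - q0 b0 hc d1 l1 d2 l2 d7 l7 d8 l8; omega
    have c1 : m1 = 0 ∨ m1 = 1 ∨ m1 = 6 := by
      clear * - q1 b1 hc d0 l0 d2 l2 d5 l5 d6 l6; omega
    have c2 : m2 = 0 ∨ m2 = 1 ∨ m2 = 6 := by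
      clear * - q2 b2 hc d0 l0 d1 l1 d3 l3 d4 l4; omega
    have c3 : m3 = 0 ∨ m3 = 1 ∨ m3 = 6 := by
      clear * - q3 b3 hc d2 l2 d4 l4 d11 l11 d12 l12; omega
    have c4 : m4 = 0 ∨ m4 = 1 ∨ m4 = 6 := by
      clear * - q4 b4 hc d2 l2 d3 l3 d9 l9 d10 l10; omega
    have c5 : m5 = 0 ∨ m5 = 1 ∨ m5 = 6 := by
      clear * - q5 b5 hc d1 l1 d6 l6 d10 l10 d12 l12; omega
    have c6 : m6 = 0 ∨ m6 = 1 ∨ m6 = 6 := by
      clear * - q6 b6 hc d1 l1 d5 l5 d9 l9 d11 l11; omega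
    have c7 : m7 = 0 ∨ m7 = 1 ∨ m7 = 6 := by
      clear * - q7 b7 hc d0 l0 d8 l8 d10 l10 d11 l11; omega
    have c8 : m8 = 0 ∨ m8 = 1 ∨ m8 = 6 := by
      clear * - q8 b8 hc d0 l0 d7 l7 d9 l9 d12 l12; omega
    have c9 : m9 = 0 ∨ m9 = 1 ∨ m9 = 6 := by
      clear * - q9 b9 hc d4 l4 d6 l6 d8 l8 d9 l9; omega
    have c10 : m10 = 0 ∨ m10 = 1 ∨ m10 = 6 := by
      clear * - q10 b10 hc d4 l4 d5 l5 d7 l7 d10 l10; omega
    have c11 : m11 = 0 ∨ m11 = 1 ∨ m11 = 6 := by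
      clear * - q11 b11 hc d3 l3 d6 l6 d7 l7 d11 l11; omega
    have c12 : m12 = 0 ∨ m12 = 1 ∨ m12 = 6 := by
      clear * - q12 b12 hc d3 l3 d5 l5 d8 l8 d12 l12; omega
    have n0 : w0 = 3 ∨ w0 = 9 := by
      clear * - d0 l0 hc c1 c2 c7 c8; omega
    have n1 : w1 = 3 ∨ w1 = 9 := by
      clear * - d1 l1 hc c0 c2 c5 c6; omega
    have n2 : w2 = 3 ∨ w2 = 9 := by
      clear * - d2 l2 hc c0 c1 c3 c4; omega
    have n3 : w3 = 3 ∨ w3 = 9 := by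
      clear * - d3 l3 hc c2 c4 c11 c12; omega
    have n4 : w4 = 3 ∨ w4 = 9 := by
      clear * - d4 l4 hc c2 c3 c9 c10; omega
    have n5 : w5 = 3 ∨ w5 = 9 := by
      clear * - d5 l5 hc c1 c6 c10 c12; omega
    have n6 : w6 = 3 ∨ w6 = 9 := by
      clear * - d6 l6 hc c1 c5 c9 c11; omega
    have n7 : w7 = 3 ∨ w7 = 9 := by
      clear * - d7 l7 hc c0 c8 c10 c11; omega
    have n8 : w8 = 3 ∨ w8 = 9 := by
      clear * - d8 l8 hc c0 c7 c9 c12; omega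
    have n9 : w9 = 3 ∨ w9 = 9 := by
      clear * - d9 l9 hc c4 c6 c8 c9; omega
    have n10 : w10 = 3 ∨ w10 = 9 := by
      clear * - d10 l10 hc c4 c5 c7 c10; omega
    have n11 : w11 = 3 ∨ w11 = 9 := by
      clear * - d11 l11 hc c3 c6 c7 c11; omega
    have n12 : w12 = 3 ∨ w12 = 9 := by
      clear * - d12 l12 hc c3 c5 c8 c12; omega
    have r0 : m0 % 6 = 0 := by
      clear * - c0 q0 hc n1 n2 n7 n8; omega
    have r1 : m1 % 6 = 0 := by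
      clear * - c1 q1 hc n0 n2 n5 n6; omega
    have r2 : m2 % 6 = 0 := by
      clear * - c2 q2 hc n0 n1 n3 n4; omega
    have r3 : m3 % 6 = 0 := by
      clear * - c3 q3 hc n2 n4 n11 n12; omega
    have r4 : m4 % 6 = 0 := by
      clear * - c4 q4 hc n2 n3 n9 n10; omega
    have r5 : m5 % 6 = 0 := by
      clear * - c5 q5 hc n1 n6 n10 n12; omega
    have r6 : m6 % 6 = 0 := by
      clear * - c6 q6 hc n1 n5 n9 n11; omega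
    have r7 : m7 % 6 = 0 := by
      clear * - c7 q7 hc n0 n8 n10 n11; omega
    have r8 : m8 % 6 = 0 := by
      clear * - c8 q8 hc n0 n7 n9 n12; omega
    have r9 : m9 % 6 = 0 := by
      clear * - c9 q9 hc n4 n6 n8 n9; omega
    have r10 : m10 % 6 = 0 := by
      clear * - c10 q10 hc n4 n5 n7 n10; omega
    have r11 : m11 % 6 = 0 := by
      clear * - c11 q11 hc n3 n6 n7 n11; omega
    have r12 : m12 % 6 = 0 := by
      clear * - c12 q12 hc n3 n5 n8 n12; omega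
    clear * - hs hc r0 r1 r2 r3 r4 r5 r6 r7 r8 r9 r10 r11 r12
    omega

end Pool.Agent.P.MP_6c54ca_co.Six
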