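import Pool.Agent.P.MP_6c54ca_co.SixB
import Pool.Agent.P.MP_6c54ca_co.SixD

/-! No Sidon set of size 36 in the group of exponent 6 and rank 4: the ternary part. -/

set_option linter.unusedSectionVars false

namespace Pool.Agent.P.MP_6c54ca_co.Six

open Finset

theorem w3 {A : Finset (P × Q)} (hA : Sid A) (hc : #A = 36) (φ : Q →+ ZMod 3)
    (hφ : Function.Surjective φ) (hp : φ (∑ a ∈ A, a.2) = 0) :
    #{n ∈ Lw A | φ n.2 = 1} = 0 ∨ #{n ∈ Lw A | φ n.2 = 1} = 3 ∨ #{n ∈ Lw A | φ n.2 = 1} = 9 := by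
  let f : P × Q →+ ZMod 3 := φ.comp (AddMonoidHom.snd P Q)
  have hf : Function.Surjective f := fun y => by
    obtain ⟨u, hu⟩ := hφ y
    exact ⟨(0, u), hu⟩
  have h1 := pair_count hA f (h := 1) (by decide)
  have h1' := pair_count hA f (h := 2) (by decide)
  have h2 := card_fiber f hf 1
  have h2' := card_fiber f hf 2
  have h4 := split_Lv hA (fun n => f n = 1)
  have h4' := split_Lv hA (fun n => f n = 2)
  have z1 : #{u : P | f (u, 0) = 1} = 0 := by
    refine card_eq_zero.mpr (filter_eq_empty_iff.mpr fun u _ h => ?_)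
    have : φ 0 = 1 := h
    rw [map_zero] at this
    exact absurd this (by decide)
  have z2 : #{u : P | f (u, 0) = 2} = 0 := by
    refine card_eq_zero.mpr (filter_eq_empty_iff.mpr fun u _ h => ?_)
    have : φ 0 = 2 := h
    rw [map_zero] at this
    exact absurd this (by decide)
  have h5 : Fintype.card (P × Q) = 1296 := by simp [ZMod.card]
  have h7 : #{n ∈ Lw A | f n = 1} + #{n ∈ Lw A | f n = 2} ≤ 20 := by
    rw [← card_union_of_disjoint, ← card_Lw hA hc]
    · exact card_le_card (union_subset (filter_subset _ _) (filter_subset _ _))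
    · refine disjoint_filter.mpr fun n _ e1 e2 => ?_
      rw [e1] at e2
      exact absurd e2 (by decide)
  have h8 := card_eq_sum_card_fiberwise (f := f) (s := A) (t := univ)
    (fun _ _ => mem_coe.mpr (mem_univ _))
  have h9 : ∑ y : ZMod 3, (#{a ∈ A | f a = y} : ZMod 3) * y = 0 := by
    rw [← hp, map_sum, ← sum_fiberwise_of_maps_to (g := f) (t := univ) (fun _ _ => mem_univ _)]
    refine sum_congr rfl fun y _ => ?_
    have : ∑ i ∈ A with f i = y, φ i.2 = ∑ i ∈ A with f i = y, y :=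
      sum_congr rfl fun a ha => (mem_filter.mp ha).2
    rw [this, sum_const, nsmul_eq_mul]
  have u3 : ∀ {M : Type} [AddCommMonoid M] (g : ZMod 3 → M), ∑ y, g y = g 0 + g 1 + g 2 :=
    fun g => Fin.sum_univ_three g
  rw [u3] at h1 h1' h8 h9
  have e1 : (0 : ZMod 3) + 1 = 1 := by decide
  have e2 : (1 : ZMod 3) + 1 = 2 := by decide
  have e3 : (2 : ZMod 3) + 1 = 0 := by decide
  have e4 : (0 : ZMod 3) + 2 = 2 := by decide
  have e5 : (1 : ZMod 3) + 2 = 0 := by decide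
  have e6 : (2 : ZMod 3) + 2 = 1 := by decide
  rw [e1, e2, e3] at h1
  rw [e4, e5, e6] at h1'
  rw [ZMod.card] at h2 h2'
  rw [hc] at h8
  show #{n ∈ Lw A | f n = 1} = 0 ∨ #{n ∈ Lw A | f n = 1} = 3 ∨ #{n ∈ Lw A | f n = 1} = 9
  generalize #{a ∈ A | f a = 0} = x at *
  generalize #{a ∈ A | f a = 1} = y at *
  generalize #{a ∈ A | f a = 2} = z at *
  generalize #{n ∈ Lw A | f n = 1} = w at *
  generalize #{n ∈ Lw A | f n = 2} = w' at *
  have h10 : 3 ∣ y + 2 * z := by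
    apply (ZMod.natCast_eq_zero_iff _ _).mp
    push_cast
    rw [← h9]; ring
  have k1 : y * x + z * y + x * z + w = 432 := by omega
  have k2 : y * x + z * y + x * z + w' = 432 := by nlinarith
  have hw : w ≤ 10 := by omega
  obtain rfl : x = 36 - y - z := by omega
  have hy : y + z ≤ 36 := by omega
  clear * - k1 hw hy h10
  let F : ℕ → ℕ → ℕ := fun y z => y * (36 - y - z) + z * y + (36 - y - z) * z
  have key : ∀ y < 37, ∀ z < 37, (36 < y + z ∨ (y + 2 * z) % 3 ≠ 0 ∨ F y z < 422 ∨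
      F y z = 432 ∨ F y z = 429 ∨ F y z = 423) := by
    decide +kernel
  have := key y (by omega) z (by omega)
  have k2 : F y z + w = 432 := k1
  omega

theorem exists_proj (p : Q) : ∃ (π : Q →+ R) (i : Fin 4), π p = 0 ∧ Function.Surjective π ∧
    ∀ v w, π v = π w → v i = w i → v = w := by
  obtain ⟨i, t, ht⟩ : ∃ (i : Fin 4) (t : Q), ∀ j, p j = t j * p i := by
    revert p; decide +kernel
  refine ⟨{ toFun := fun v => (v (i.succAbove 0) - t (i.succAbove 0) * v i,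
              v (i.succAbove 1) - t (i.succAbove 1) * v i,
              v (i.succAbove 2) - t (i.succAbove 2) * v i)
            map_zero' := by simp
            map_add' := fun v w => by
              simp only [Pi.add_apply, Prod.mk_add_mk, Prod.mk.injEq]
              refine ⟨by ring, by ring, by ring⟩ }, i, ?_, ?_, ?_⟩
  · simp only [AddMonoidHom.coe_mk, ZeroHom.coe_mk, ← ht, sub_self]
    rfl
  · rintro ⟨a, b, c⟩
    refine ⟨i.insertNth 0 ![a, b, c], ?_⟩
    simp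
  · intro v w h hi
    simp only [AddMonoidHom.coe_mk, ZeroHom.coe_mk, Prod.mk.injEq, hi, sub_left_inj] at h
    funext j
    refine Fin.succAboveCases i hi (fun k => ?_) j
    fin_cases k
    · exact h.1
    · exact h.2.1
    · exact h.2.2

/-- the linear form with coefficients `a, b, c` -/
def dot3 (a b c : ZMod 3) : R →+ ZMod 3 where
  toFun u := a * u.1 + b * u.2.1 + c * u.2.2
  map_zero' := by simp
  map_add' u v := by simp only [Prod.fst_add, Prod.snd_add]; ring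

theorem sum_R (g : R → ℕ) : ∑ v, g v = g (0, 0, 0) + g (0, 0, 1) + g (0, 0, 2) + g (0, 1, 0) + g (0, 1, 1)
      + g (0, 1, 2) + g (0, 2, 0) + g (0, 2, 1) + g (0, 2, 2) + g (1, 0, 0)
      + g (1, 0, 1) + g (1, 0, 2) + g (1, 1, 0) + g (1, 1, 1) + g (1, 1, 2)
      + g (1, 2, 0) + g (1, 2, 1) + g (1, 2, 2) + g (2, 0, 0) + g (2, 0, 1)
      + g (2, 0, 2) + g (2, 1, 0) + g (2, 1, 1) + g (2, 1, 2) + g (2, 2, 0)
      + g (2, 2, 1) + g (2, 2, 2) := by
  have u3 : ∀ g : ZMod 3 → ℕ, ∑ y, g y = g 0 + g 1 + g 2 := fun g => Fin.sum_univ_three g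
  simp only [Fintype.sum_prod_type, u3, add_assoc]

theorem plane (M : R → ℕ) (hs : ∀ v, M (-v) = M v) (h6 : ∀ v, M v ≤ 6) (h0 : M 0 ≤ 4)
    (ht : ∑ v, M v = 20)
    (hw : ∀ a b c : ZMod 3, (a, b, c) ≠ 0 →
      (∑ v with dot3 a b c v = 1, M v) = 0 ∨ (∑ v with dot3 a b c v = 1, M v) = 3 ∨
      (∑ v with dot3 a b c v = 1, M v) = 9) : False := by
  have s0 : M (2, 0, 0) = M (1, 0, 0) := hs (1, 0, 0)
  have s1 : M (0, 2, 0) = M (0, 1, 0) := hs (0, 1, 0)
  have s2 : M (0, 0, 2) = M (0, 0, 1) := hs (0, 0, 1)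
  have s3 : M (2, 2, 0) = M (1, 1, 0) := hs (1, 1, 0)
  have s4 : M (2, 1, 0) = M (1, 2, 0) := hs (1, 2, 0)
  have s5 : M (2, 0, 2) = M (1, 0, 1) := hs (1, 0, 1)
  have s6 : M (2, 0, 1) = M (1, 0, 2) := hs (1, 0, 2)
  have s7 : M (0, 2, 2) = M (0, 1, 1) := hs (0, 1, 1)
  have s8 : M (0, 2, 1) = M (0, 1, 2) := hs (0, 1, 2)
  have s9 : M (2, 2, 2) = M (1, 1, 1) := hs (1, 1, 1)
  have s10 : M (2, 2, 1) = M (1, 1, 2) := hs (1, 1, 2)
  have s11 : M (2, 1, 2) = M (1, 2, 1) := hs (1, 2, 1)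
  have s12 : M (2, 1, 1) = M (1, 2, 2) := hs (1, 2, 2)
  rw [sum_R] at ht
  have f : ∀ (a b c : ZMod 3) (l : List R), l.Nodup →
      (∀ v, dot3 a b c v = 1 ↔ v ∈ l) → ∑ v with dot3 a b c v = 1, M v = (l.map M).sum := by
    intro a b c l h1 h2
    rw [← List.sum_toFinset M h1]
    refine sum_congr ?_ fun _ _ => rfl
    ext v
    simp [h2]
  refine arith (M (0, 0, 0)) (M (1, 0, 0)) (M (0, 1, 0)) (M (0, 0, 1)) (M (1, 1, 0)) (M (1, 2, 0))
    (M (1, 0, 1)) (M (1, 0, 2)) (M (0, 1, 1)) (M (0, 1, 2)) (M (1, 1, 1))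
    (M (1, 1, 2)) (M (1, 2, 1)) (M (1, 2, 2))
    _ _ _ _ _ _ _ _ _ _ _ _ _ h0 (by omega) (h6 _) (h6 _) (h6 _) (h6 _) (h6 _) (h6 _) (h6 _) (h6 _) (h6 _) (h6 _) (h6 _) (h6 _) (h6 _)
    ?_ (hw 1 0 0 (by decide))
    ?_ (hw 0 1 0 (by decide))
    ?_ (hw 0 0 1 (by decide))
    ?_ (hw 1 1 0 (by decide))
    ?_ (hw 1 2 0 (by decide))
    ?_ (hw 1 0 1 (by decide))
    ?_ (hw 1 0 2 (by decide))
    ?_ (hw 0 1 1 (by decide))
    ?_ (hw 0 1 2 (by decide))
    ?_ (hw 1 1 1 (by decide))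
    ?_ (hw 1 1 2 (by decide))
    ?_ (hw 1 2 1 (by decide))
    ?_ (hw 1 2 2 (by decide))
  · rw [f _ _ _ [(1, 0, 0), (1, 0, 1), (1, 0, 2), (1, 1, 0), (1, 1, 1), (1, 1, 2),
      (1, 2, 0), (1, 2, 1), (1, 2, 2)] (by decide) (by decide +kernel)]
    simp only [List.map, List.sum_cons, List.sum_nil]
    omega
  · rw [f _ _ _ [(0, 1, 0), (0, 1, 1), (0, 1, 2), (1, 1, 0), (1, 1, 1), (1, 1, 2),
      (2, 1, 0), (2, 1, 1), (2, 1, 2)] (by decide) (by decide +kernel)]
    simp only [List.map, List.sum_cons, List.sum_nil]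
    omega
  · rw [f _ _ _ [(0, 0, 1), (0, 1, 1), (0, 2, 1), (1, 0, 1), (1, 1, 1), (1, 2, 1),
      (2, 0, 1), (2, 1, 1), (2, 2, 1)] (by decide) (by decide +kernel)]
    simp only [List.map, List.sum_cons, List.sum_nil]
    omega
  · rw [f _ _ _ [(0, 1, 0), (0, 1, 1), (0, 1, 2), (1, 0, 0), (1, 0, 1), (1, 0, 2),
      (2, 2, 0), (2, 2, 1), (2, 2, 2)] (by decide) (by decide +kernel)]
    simp only [List.map, List.sum_cons, List.sum_nil]
    omega
  · rw [f _ _ _ [(0, 2, 0), (0, 2, 1), (0, 2, 2), (1, 0, 0), (1, 0, 1), (1, 0, 2),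
      (2, 1, 0), (2, 1, 1), (2, 1, 2)] (by decide) (by decide +kernel)]
    simp only [List.map, List.sum_cons, List.sum_nil]
    omega
  · rw [f _ _ _ [(0, 0, 1), (0, 1, 1), (0, 2, 1), (1, 0, 0), (1, 1, 0), (1, 2, 0),
      (2, 0, 2), (2, 1, 2), (2, 2, 2)] (by decide) (by decide +kernel)]
    simp only [List.map, List.sum_cons, List.sum_nil]
    omega
  · rw [f _ _ _ [(0, 0, 2), (0, 1, 2), (0, 2, 2), (1, 0, 0), (1, 1, 0), (1, 2, 0),
      (2, 0, 1), (2, 1, 1), (2, 2, 1)] (by decide) (by decide +kernel)]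
    simp only [List.map, List.sum_cons, List.sum_nil]
    omega
  · rw [f _ _ _ [(0, 0, 1), (0, 1, 0), (0, 2, 2), (1, 0, 1), (1, 1, 0), (1, 2, 2),
      (2, 0, 1), (2, 1, 0), (2, 2, 2)] (by decide) (by decide +kernel)]
    simp only [List.map, List.sum_cons, List.sum_nil]
    omega
  · rw [f _ _ _ [(0, 0, 2), (0, 1, 0), (0, 2, 1), (1, 0, 2), (1, 1, 0), (1, 2, 1),
      (2, 0, 2), (2, 1, 0), (2, 2, 1)] (by decide) (by decide +kernel)]
    simp only [List.map, List.sum_cons, List.sum_nil]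
    omega
  · rw [f _ _ _ [(0, 0, 1), (0, 1, 0), (0, 2, 2), (1, 0, 0), (1, 1, 2), (1, 2, 1),
      (2, 0, 2), (2, 1, 1), (2, 2, 0)] (by decide) (by decide +kernel)]
    simp only [List.map, List.sum_cons, List.sum_nil]
    omega
  · rw [f _ _ _ [(0, 0, 2), (0, 1, 0), (0, 2, 1), (1, 0, 0), (1, 1, 1), (1, 2, 2),
      (2, 0, 1), (2, 1, 2), (2, 2, 0)] (by decide) (by decide +kernel)]
    simp only [List.map, List.sum_cons, List.sum_nil]
    omega
  · rw [f _ _ _ [(0, 0, 1), (0, 1, 2), (0, 2, 0), (1, 0, 0), (1, 1, 1), (1, 2, 2),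
      (2, 0, 2), (2, 1, 0), (2, 2, 1)] (by decide) (by decide +kernel)]
    simp only [List.map, List.sum_cons, List.sum_nil]
    omega
  · rw [f _ _ _ [(0, 0, 2), (0, 1, 1), (0, 2, 0), (1, 0, 0), (1, 1, 2), (1, 2, 1),
      (2, 0, 1), (2, 1, 0), (2, 2, 2)] (by decide) (by decide +kernel)]
    simp only [List.map, List.sum_cons, List.sum_nil]
    omega

theorem core {A : Finset (P × Q)} (hA : Sid A) (hc : #A = 36) : False := by
  obtain ⟨π, i, hp, hπ, hi⟩ := exists_proj (∑ a ∈ A, a.2)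
  obtain ⟨u, hu⟩ : ∃ u : P, ∀ n ∈ Lw A, n.1 = 0 ∨ n.1 = u := by
    by_cases h : ∃ n ∈ Lw A, n.1 ≠ 0
    · obtain ⟨n, hn, h1⟩ := h
      refine ⟨n.1, fun m hm => ?_⟩
      by_cases h2 : m.1 = 0
      · exact Or.inl h2
      · exact Or.inr (one_u hA hc hm hn h2 h1)
    · refine ⟨0, fun n hn => Or.inl ?_⟩
      by_contra h1
      exact h ⟨n, hn, h1⟩
  have bd : ∀ (v : R) (T : Finset (ZMod 3)), (∀ n ∈ Lw A, π n.2 = v → n.2 i ∈ T) →
      #{n ∈ Lw A | π n.2 = v} ≤ 2 * #T := by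
    intro v T hT
    have h1 : #{n ∈ Lw A | π n.2 = v} ≤ #(({0, u} : Finset P) ×ˢ T) := by
      apply card_le_card_of_injOn (fun n => (n.1, n.2 i))
      · intro n hn
        have hn' := mem_filter.mp (mem_coe.mp hn)
        refine mem_coe.mpr (mem_product.mpr ⟨?_, hT n hn'.1 hn'.2⟩)
        simpa using hu n hn'.1
      · intro n hn m hm h
        have hn' := mem_filter.mp (mem_coe.mp hn)
        have hm' := mem_filter.mp (mem_coe.mp hm)
        simp only [Prod.mk.injEq] at h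
        exact Prod.ext h.1 (hi _ _ (hn'.2.trans hm'.2.symm) h.2)
    rw [card_product] at h1
    exact h1.trans (Nat.mul_le_mul_right _ card_le_two)
  apply plane (fun v => #{n ∈ Lw A | π n.2 = v})
  · intro v
    apply card_nbij' (fun n => -n) (fun n => -n)
    · intro n hn
      have hn' := mem_filter.mp (mem_coe.mp hn)
      refine mem_coe.mpr (mem_filter.mpr ⟨neg_mem_Lw hn'.1, ?_⟩)
      rw [Prod.snd_neg, map_neg, hn'.2, neg_neg]
    · intro n hn
      have hn' := mem_filter.mp (mem_coe.mp hn)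
      refine mem_coe.mpr (mem_filter.mpr ⟨neg_mem_Lw hn'.1, ?_⟩)
      rw [Prod.snd_neg, map_neg, hn'.2]
    · intro n _
      exact neg_neg n
    · intro n _
      exact neg_neg n
  · intro v
    exact bd v univ fun _ _ _ => mem_univ _
  · refine bd 0 {1, 2} fun n hn h => ?_
    have h1 : n.2 i ≠ 0 := fun e =>
      (mem_filter.mp hn).2 (hi n.2 0 (h.trans (map_zero π).symm) e)
    revert h1
    generalize n.2 i = x
    revert x
    decide
  · rw [← card_Lw hA hc]
    exact (card_eq_sum_card_fiberwise (f := fun n : P × Q => π n.2) (s := Lw A) (t := univ)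
      (fun _ _ => mem_coe.mpr (mem_univ _))).symm
  · intro a b c habc
    have hs : Function.Surjective ((dot3 a b c).comp π) := by
      have : ∀ a b c : ZMod 3, (a, b, c) ≠ 0 → ∀ y, ∃ v : R, dot3 a b c v = y := by
        decide +kernel
      intro y
      obtain ⟨v, hv⟩ := this a b c habc y
      obtain ⟨w, rfl⟩ := hπ v
      exact ⟨w, hv⟩
    have h1 := w3 hA hc ((dot3 a b c).comp π) hs (by rw [AddMonoidHom.comp_apply, hp, map_zero])
    have h2 : #{n ∈ Lw A | ((dot3 a b c).comp π) n.2 = 1}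
        = ∑ v with dot3 a b c v = 1, #{n ∈ Lw A | π n.2 = v} := by
      rw [card_eq_sum_card_fiberwise (f := fun n : P × Q => π n.2)
        (t := {v | dot3 a b c v = 1})]
      · refine sum_congr rfl fun v hv => ?_
        congr 1
        ext n
        simp only [mem_filter, AddMonoidHom.comp_apply]
        constructor
        · rintro ⟨⟨h, -⟩, h'⟩
          exact ⟨h, h'⟩
        · rintro ⟨h, h'⟩
          exact ⟨⟨h, by rw [h']; exact (mem_filter.mp hv).2⟩, h'⟩
      · intro n hn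
        exact mem_coe.mpr (mem_filter.mpr ⟨mem_univ _, (mem_filter.mp (mem_coe.mp hn)).2⟩)
    rwa [h2] at h1

theorem main (A : Finset (Fin 4 → ZMod 6)) (hA : Sid A) : #A < 36 := by
  by_contra hlt
  obtain ⟨B, hB, hc⟩ := exists_subset_card_eq (not_lt.mp hlt)
  let e : (Fin 4 → ZMod 6) → P × Q := fun g =>
    (fun i => ZMod.castHom (show 2 ∣ 6 by decide) (ZMod 2) (g i),
      fun i => ZMod.castHom (show 3 ∣ 6 by decide) (ZMod 3) (g i))
  have ea : ∀ g h, e (g + h) = e g + e h := fun g h =>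
    Prod.ext (funext fun i => map_add _ (g i) (h i)) (funext fun i => map_add _ (g i) (h i))
  have ei : Function.Injective e := by
    intro g h hgh
    funext i
    have k : ∀ x y : ZMod 6, ZMod.castHom (show 2 ∣ 6 by decide) (ZMod 2) x
        = ZMod.castHom (show 2 ∣ 6 by decide) (ZMod 2) y →
        ZMod.castHom (show 3 ∣ 6 by decide) (ZMod 3) x
        = ZMod.castHom (show 3 ∣ 6 by decide) (ZMod 3) y → x = y := by decide +kernel
    exact k _ _ (congrFun (congrArg Prod.fst hgh) i) (congrFun (congrArg Prod.snd hgh) i)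
  refine core (A := B.image e) ?_ (by rw [card_image_of_injective _ ei, hc])
  intro a ha b hb c hc' d hd h
  obtain ⟨a, ha', rfl⟩ := mem_image.mp ha
  obtain ⟨b, hb', rfl⟩ := mem_image.mp hb
  obtain ⟨c, hc'', rfl⟩ := mem_image.mp hc'
  obtain ⟨d, hd', rfl⟩ := mem_image.mp hd
  rw [← ea, ← ea] at h
  rcases hA a (hB ha') b (hB hb') c (hB hc'') d (hB hd') (ei h) with h1 | h1
  · exact Or.inl ⟨by rw [h1.1], by rw [h1.2]⟩
  · exact Or.inr ⟨by rw [h1.1], by rw [h1.2]⟩

end Pool.Agent.P.MP_6c54ca_co.Six
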