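import Pool.Agent.P.MP_6c54ca_co.Search

set_option autoImplicit false

namespace Pool.Agent.P.MP_6c54ca_co

theorem force_eq (x : ℕ) (f : ℕ → Bool) : force x f = f x := by
  cases x <;> rfl

theorem bit_eq (M i : ℕ) : bit M i = M.testBit i := by
  unfold bit Nat.testBit
  have h : Nat.land 1 (Nat.shiftRight M i) = 1 &&& (M >>> i) := rfl
  rw [h, Nat.one_and_eq_mod_two]
  rcases Nat.mod_two_eq_zero_or_one (M >>> i) with h | h <;> rw [h] <;> rfl

variable {k : ℕ}

theorem pos_add {i s : ℕ} (h : i % (2 * k) + s % (2 * k) < 2 * k) :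
    pos k (i + s) = pos k i + pos k s := by
  have hk : 0 < 2 * k := by omega
  unfold pos
  rw [Nat.add_div_eq_of_add_mod_lt h, Nat.add_mod, Nat.mod_eq_of_lt h]
  push_cast
  rfl

theorem pos_mk (u : ℕ) {v : ℕ} (hv : v < 2 * k) : pos k (u * (2 * k) + v) = ((u : ZMod k), (v : ZMod k)) := by
  have hk : 0 < 2 * k := by omega
  unfold pos
  rw [mul_comm u, Nat.mul_add_div hk, Nat.mul_add_mod, Nat.div_eq_of_lt hv, Nat.mod_eq_of_lt hv,
    add_zero]

/-- Every set bit codes an element of `T`. -/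
def Snd (k M : ℕ) (T : Set (ZMod k × ZMod k)) : Prop := ∀ i, M.testBit i = true → pos k i ∈ T

/-- Every set bit is reduced in the second coordinate and codes an element of `T`. -/
def SndB (k M : ℕ) (T : Set (ZMod k × ZMod k)) : Prop :=
  ∀ i, M.testBit i = true → i % (2 * k) < k ∧ pos k i ∈ T

theorem Snd.mono {M : ℕ} {T T' : Set (ZMod k × ZMod k)} (h : Snd k M T) (hT : T ⊆ T') :
    Snd k M T' := fun i hi => hT (h i hi)

theorem Snd.lor {M N : ℕ} {T : Set (ZMod k × ZMod k)} (h : Snd k M T) (h' : Snd k N T) :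
    Snd k (Nat.lor M N) T := fun i hi => by
  have : (M ||| N).testBit i = true := hi
  rw [Nat.testBit_or, Bool.or_eq_true] at this
  exact this.elim (h i) (h' i)

theorem Snd.shiftLeft {M s : ℕ} {T : Set (ZMod k × ZMod k)} (h : Snd k M T) (hs : pos k s = 0)
    (hM : ∀ i, M.testBit i = true → i % (2 * k) + s % (2 * k) < 2 * k) :
    Snd k (Nat.shiftLeft M s) T := fun i hi => by
  have : (M <<< s).testBit i = true := hi
  rw [Nat.testBit_shiftLeft, Bool.and_eq_true, decide_eq_true_eq] at this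
  obtain ⟨j, rfl⟩ := Nat.exists_eq_add_of_le' this.1
  have h2 := this.2
  rw [Nat.add_sub_cancel] at h2
  rw [pos_add (hM j h2), hs, add_zero]
  exact h j h2

theorem SndB.per (hk : 0 < k) {M : ℕ} {T : Set (ZMod k × ZMod k)} (h : SndB k M T) :
    Snd k (per k (2 * k * k) M) T := by
  have h0 : Snd k M T := fun i hi => (h i hi).2
  have h1 : Snd k (Nat.lor M (Nat.shiftLeft M k)) T := h0.lor (h0.shiftLeft (by
    simpa [Prod.mk_zero_zero] using pos_mk (k := k) 0 (v := k) (by omega)) fun i hi => by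
      have := (h i hi).1
      rw [Nat.mod_eq_of_lt (show k < 2 * k by omega)]
      omega)
  refine h1.lor (h1.shiftLeft ?_ fun i _ => ?_)
  · simpa [mul_comm, Prod.mk_zero_zero] using pos_mk (k := k) k (v := 0) (by omega)
  · rw [Nat.mul_mod_right, add_zero]
    exact Nat.mod_lt _ (by omega)

theorem Snd.shiftRight {M s i : ℕ} {T : Set (ZMod k × ZMod k)} (h : Snd k M T) (hs : s % (2 * k) ≤ k)
    (hi : i % (2 * k) < k) (hb : (Nat.shiftRight M s).testBit i = true) : pos k i + pos k s ∈ T := by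
  have : (M >>> s).testBit i = true := hb
  rw [Nat.testBit_shiftRight, add_comm] at this
  rw [← pos_add (by omega)]
  exact h _ this

/-- Reduced indices. -/
def Base (k x : ℕ) : Prop := x % (2 * k) < k ∧ x / (2 * k) < k

theorem neg_idx {x : ℕ} (hx : Base k x) :
    (Nat.sub (Nat.add (2 * k * k) k) x) % (2 * k) ≤ k ∧
      pos k (Nat.sub (Nat.add (2 * k * k) k) x) = -pos k x := by
  obtain ⟨h1, h2⟩ := hx
  have e : Nat.sub (Nat.add (2 * k * k) k) x =
      (k - x / (2 * k)) * (2 * k) + (k - x % (2 * k)) := by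
    have h3 := Nat.div_add_mod x (2 * k)
    change 2 * k * k + k - x = _
    generalize x / (2 * k) = u at *
    generalize x % (2 * k) = v at *
    obtain ⟨w, hw⟩ := Nat.exists_eq_add_of_le h2.le
    have : k - u = w := by omega
    rw [this]
    have : 2 * k * k = 2 * k * u + w * (2 * k) := by
      nth_rewrite 2 [hw]
      ring
    omega
  rw [e]
  refine ⟨?_, ?_⟩
  · rw [mul_comm, Nat.mul_add_mod, Nat.mod_eq_of_lt (by omega)]
    omega
  · rw [pos_mk _ (by omega), Nat.cast_sub h2.le, Nat.cast_sub h1.le]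
    simp [pos]

theorem filt_spec (F : ℕ) (cont : List ℕ → ℕ → Bool) (l : List ℕ) : ∀ acc : List ℕ,
    filt F cont l acc acc.length = true → ∃ l' : List ℕ, cont l' l'.length = true ∧
      (∀ y ∈ l', y ∈ l ∨ y ∈ acc) ∧ (∀ y ∈ acc, y ∈ l') ∧
      ∀ y ∈ l, F.testBit y = false → y ∈ l' := by
  induction l with
  | nil => exact fun acc h => ⟨acc, h, fun y hy => Or.inr hy, fun y hy => hy, by simp⟩
  | cons x t ih =>
    intro acc h
    have h' : cond (bit F x) (filt F cont t acc acc.length)
      (filt F cont t (x :: acc) (x :: acc).length) = true := h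
    rw [bit_eq] at h'
    cases hb : F.testBit x
    · rw [hb, cond_false] at h'
      obtain ⟨l', h1, h2, h3, h4⟩ := ih _ h'
      refine ⟨l', h1, fun y hy => ?_, fun y hy => h3 y (List.mem_cons_of_mem _ hy), fun y hy hF => ?_⟩
      · have := h2 y hy
        simp only [List.mem_cons] at this ⊢
        tauto
      · rcases List.mem_cons.1 hy with rfl | hy
        · exact h3 _ List.mem_cons_self
        · exact h4 y hy hF
    · rw [hb, cond_true] at h'
      obtain ⟨l', h1, h2, h3, h4⟩ := ih _ h'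
      refine ⟨l', h1, fun y hy => (h2 y hy).imp_left (List.mem_cons_of_mem _), h3, fun y hy hF => ?_⟩
      rcases List.mem_cons.1 hy with rfl | hy
      · rw [hb] at hF
        exact absurd hF (by decide)
      · exact h4 y hy hF

/-- Soundness of the four masks. -/
structure Inv (k : ℕ) (D : Set (ZMod k × ZMod k)) (pd pn ps pl : ℕ) : Prop where
  d : Snd k pd D
  n : Snd k pn {z | -z ∈ D}
  s : Snd k ps {z | ∃ a ∈ D, ∃ b ∈ D, z = a + b}
  l : Snd k pl {z | ∃ a ∈ D, ∃ b ∈ D, z = a - b}

theorem land_bit {M N i : ℕ} (h : (Nat.land M N).testBit i = true) :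
    M.testBit i = true ∧ N.testBit i = true := by
  have : (M &&& N).testBit i = true := h
  rwa [Nat.testBit_and, Bool.and_eq_true] at this

theorem lor_bit {M N i : ℕ} (h : (Nat.lor M N).testBit i = true) :
    M.testBit i = true ∨ N.testBit i = true := by
  have : (M ||| N).testBit i = true := h
  rwa [Nat.testBit_or, Bool.or_eq_true] at this

theorem one_bit {x i : ℕ} (h : (Nat.shiftLeft 1 x).testBit i = true) : i = x := by
  have : (1 <<< x).testBit i = true := h
  rw [Nat.one_shiftLeft, Nat.testBit_two_pow] at this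
  exact (of_decide_eq_true this).symm

theorem ext_spec (hk : 0 < k) {B : ℕ} (hB : ∀ i, B.testBit i = true → i % (2 * k) < k)
    {A : Finset (ZMod k × ZMod k)} (hA : Sid A) {D : Set (ZMod k × ZMod k)} (hD : D ⊆ A)
    {c : Bool} {x pd pn ps pl : ℕ} (hx : Base k x) (hxA : pos k x ∈ A) (hc : c = true → pos k x ∉ D)
    (hI : Inv k D pd pn ps pl) {l : List ℕ} (hl : ∀ y ∈ l, Base k y)
    {cont : ℕ → ℕ → ℕ → ℕ → List ℕ → ℕ → Bool}
    (h : ext k (2 * k * k) B c x pd pn ps pl l cont = true) :
    ∃ pd' pn' ps' pl' l', Inv k (insert (pos k x) D) pd' pn' ps' pl' ∧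
      cont pd' pn' ps' pl' l' l'.length = true ∧ (∀ y ∈ l', Base k y) ∧
      ∀ y ∈ l, pos k y ∈ A → pos k y ∉ insert (pos k x) D → y ∈ l' := by
  obtain ⟨hj, hj'⟩ := neg_idx hx
  unfold ext at h
  simp only at h
  generalize Nat.sub (Nat.add (2 * k * k) k) x = j at h hj hj'
  have hD' : insert (pos k x) D ⊆ A := Set.insert_subset hxA hD
  have hxD : pos k x ∈ insert (pos k x) D := Set.mem_insert _ _
  have hd : Snd k (Nat.lor pd (per k (2 * k * k) (Nat.shiftLeft 1 x))) (insert (pos k x) D) :=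
    (hI.d.mono (Set.subset_insert _ _)).lor (SndB.per hk fun i hi => by
      rw [one_bit hi]
      exact ⟨hx.1, hxD⟩)
  generalize Nat.lor pd (per k (2 * k * k) (Nat.shiftLeft 1 x)) = pd' at h hd
  have hns : SndB k (Nat.land (Nat.shiftRight pd' j) B)
      {z | ∃ b ∈ insert (pos k x) D, z = pos k x + b} := fun i hi => by
    obtain ⟨h1, h2⟩ := land_bit hi
    exact ⟨hB i h2, _, hd.shiftRight hj (hB i h2) h1, by rw [hj']; abel⟩
  generalize Nat.land (Nat.shiftRight pd' j) B = ns at h hns
  have h0 : cond c (Nat.beq (Nat.land ns ps) 0) true = true := by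
    cases c
    · rfl
    rw [cond_true, Nat.beq_eq]
    refine Nat.eq_of_testBit_eq fun i => ?_
    rw [Nat.zero_testBit]
    by_contra hi
    obtain ⟨h1, h2⟩ := land_bit (Bool.of_not_eq_false hi)
    obtain ⟨b, hb, e⟩ := (hns i h1).2
    obtain ⟨a, ha, a', ha', e'⟩ := hI.s i h2
    rcases hA _ hxA _ (hD' hb) _ (hD ha) _ (hD ha') (e.symm.trans e') with h3 | h3
    · exact hc rfl (h3.1 ▸ ha)
    · exact hc rfl (h3.1 ▸ ha')
  rw [h0, cond_true] at h
  have h1 : Snd k (per k (2 * k * k) 1) {0} := SndB.per hk fun i hi => by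
    have : i = 0 := one_bit (x := 0) hi
    subst this
    exact ⟨by simpa using hk, by simp [pos]⟩
  have hn : Snd k (Nat.lor pn (per k (2 * k * k)
      (Nat.land (Nat.shiftRight (per k (2 * k * k) 1) x) B))) {z | -z ∈ insert (pos k x) D} :=
    Snd.lor (hI.n.mono fun z hz => Or.inr hz) (SndB.per hk fun i hi => by
      obtain ⟨h2, h3⟩ := land_bit hi
      have := h1.shiftRight hx.1.le (hB i h3) h2
      exact ⟨hB i h3, Or.inl (neg_eq_of_add_eq_zero_right this)⟩)
  generalize Nat.lor pn (per k (2 * k * k)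
      (Nat.land (Nat.shiftRight (per k (2 * k * k) 1) x) B)) = pn' at h hn
  have hs : Snd k (Nat.lor ps (per k (2 * k * k) ns))
      {z | ∃ a ∈ insert (pos k x) D, ∃ b ∈ insert (pos k x) D, z = a + b} :=
    Snd.lor (hI.s.mono fun z ⟨a, ha, b, hb, e⟩ => ⟨a, Or.inr ha, b, Or.inr hb, e⟩)
      (SndB.per hk fun i hi => ⟨(hns i hi).1, _, hxD, (hns i hi).2⟩)
  generalize Nat.lor ps (per k (2 * k * k) ns) = ps' at h hs
  have hl' : Snd k (Nat.lor pl (per k (2 * k * k)
      (Nat.land (Nat.lor (Nat.shiftRight pn' j) (Nat.shiftRight pd' x)) B)))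
      {z | ∃ a ∈ insert (pos k x) D, ∃ b ∈ insert (pos k x) D, z = a - b} :=
    Snd.lor (hI.l.mono fun z ⟨a, ha, b, hb, e⟩ => ⟨a, Or.inr ha, b, Or.inr hb, e⟩)
      (SndB.per hk fun i hi => by
        obtain ⟨h2, h3⟩ := land_bit hi
        refine ⟨hB i h3, ?_⟩
        rcases lor_bit h2 with h4 | h4
        · exact ⟨_, hxD, _, hn.shiftRight hj (hB i h3) h4, by rw [hj']; abel⟩
        · exact ⟨_, hd.shiftRight hx.1.le (hB i h3) h4, _, hxD, by abel⟩)
  generalize Nat.lor pl (per k (2 * k * k)
      (Nat.land (Nat.lor (Nat.shiftRight pn' j) (Nat.shiftRight pd' x)) B)) = pl' at h hl'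
  obtain ⟨l', h2, h3, -, h4⟩ := filt_spec _ _ l [] h
  refine ⟨pd', pn', ps', pl', l', ⟨hd, hn, hs, hl'⟩, h2, fun y hy => hl y (by simpa using h3 y hy),
    fun y hy hyA hyD => h4 y hy ?_⟩
  by_contra hi
  rcases lor_bit (Bool.of_not_eq_false hi) with h5 | h5
  · obtain ⟨a, ha, b, hb, e⟩ := hs.shiftRight hx.1.le (hl y hy).1 h5
    rcases hA _ hyA _ hxA _ (hD' ha) _ (hD' hb) e with h6 | h6
    · exact hyD (h6.1 ▸ ha)
    · exact hyD (h6.1 ▸ hb)
  · obtain ⟨a, ha, b, hb, e⟩ := hl'.shiftRight hj (hl y hy).1 h5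
    rw [hj'] at e
    rcases hA _ hyA _ (hD' hb) _ hxA _ (hD' ha) (by linear_combination e) with h6 | h6
    · exact hyD (h6.1 ▸ hxD)
    · exact hyD (h6.1 ▸ ha)

theorem go_spec (hk : 0 < k) {B : ℕ} (hB : ∀ i, B.testBit i = true → i % (2 * k) < k)
    {A : Finset (ZMod k × ZMod k)} (hA : Sid A) (need : ℕ) :
    ∀ (D : Set (ZMod k × ZMod k)) (pd pn ps pl : ℕ) (l : List ℕ) (E : Finset (ZMod k × ZMod k)),
      D ⊆ A → Inv k D pd pn ps pl → (∀ y ∈ l, Base k y) → E ⊆ A → (∀ e ∈ E, e ∉ D) →
      (∀ e ∈ E, ∃ y ∈ l, pos k y = e) → need ≤ E.card →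
      go k (2 * k * k) B need pd pn ps pl l l.length = true → False := by
  induction need with
  | zero => exact fun _ _ _ _ _ _ _ _ _ _ _ _ _ _ h => Bool.false_ne_true h
  | succ m ih =>
    intro D pd pn ps pl l E hD hI
    induction l generalizing E with
    | nil =>
      intro _ _ _ h1 h2 _
      obtain ⟨e, he⟩ := Finset.card_pos.1 (show 0 < E.card by omega)
      simpa using h1 e he
    | cons x t iht =>
      intro hl hE hED hEl hm h
      have h' : cond (Nat.ble (x :: t).length m) true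
        (cond (ext k (2 * k * k) B true x pd pn ps pl t (go k (2 * k * k) B m))
          (go k (2 * k * k) B (m + 1) pd pn ps pl t t.length) false) = true := h
      have hlen : E.card ≤ (x :: t).length := by
        refine le_trans (Finset.card_le_card (t := ((x :: t).map (pos k)).toFinset) fun e he => ?_)
          ((List.toFinset_card_le _).trans (List.length_map _).le)
        exact List.mem_toFinset.2 (List.mem_map.2 (hEl e he))
      have hb : Nat.ble (x :: t).length m = false := by
        rw [← Bool.not_eq_true, Nat.ble_eq]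
        omega
      rw [hb, cond_false] at h'
      have ht : ∀ y ∈ t, Base k y := fun y hy => hl y (List.mem_cons_of_mem _ hy)
      cases he : ext k (2 * k * k) B true x pd pn ps pl t (go k (2 * k * k) B m)
      · rw [he] at h'
        exact Bool.false_ne_true h'
      rw [he, cond_true] at h'
      by_cases hx : pos k x ∈ E
      · obtain ⟨pd', pn', ps', pl', l', h1, h2, h3, h4⟩ := ext_spec hk hB hA hD
          (hl x List.mem_cons_self) (hE hx) (fun _ => hED _ hx) hI ht he
        have h5 : ∀ e ∈ E.erase (pos k x), e ∉ insert (pos k x) D := fun e he h =>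
          h.elim (Finset.ne_of_mem_erase he) (hED e (Finset.mem_of_mem_erase he))
        refine ih _ _ _ _ _ l' (E.erase (pos k x)) (Set.insert_subset (hE hx) hD) h1 h3
          ((Finset.erase_subset _ _).trans hE) h5 (fun e he => ?_) ?_ h2
        · obtain ⟨y, hy, rfl⟩ := hEl e (Finset.mem_of_mem_erase he)
          rcases List.mem_cons.1 hy with rfl | hy
          · exact absurd rfl (Finset.ne_of_mem_erase he)
          · exact ⟨y, h4 y hy (hE (Finset.mem_of_mem_erase he)) (h5 _ he), rfl⟩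
        · rw [Finset.card_erase_of_mem hx]
          omega
      · refine iht E ht hE hED (fun e he' => ?_) hm h'
        obtain ⟨y, hy, rfl⟩ := hEl e he'
        rcases List.mem_cons.1 hy with rfl | hy
        · exact absurd he' hx
        · exact ⟨y, hy, rfl⟩

theorem pre_spec (hk : 0 < k) {B : ℕ} (hB : ∀ i, B.testBit i = true → i % (2 * k) < k)
    {A : Finset (ZMod k × ZMod k)} (hA : Sid A) (need : ℕ) (E : Finset (ZMod k × ZMod k))
    (hE : E ⊆ A) (hn : need ≤ E.card) (L : List ℕ) :
    ∀ (D : Set (ZMod k × ZMod k)) (pd pn ps pl : ℕ) (l : List ℕ),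
      D ⊆ A → Inv k D pd pn ps pl → (∀ y ∈ l, Base k y) → (∀ e ∈ E, e ∉ D) →
      (∀ e ∈ E, ∃ y ∈ l, pos k y = e) → (∀ x ∈ L, Base k x ∧ pos k x ∈ A ∧ pos k x ∉ E) →
      pre k (2 * k * k) B need L pd pn ps pl l l.length = true → False := by
  induction L with
  | nil =>
    exact fun D pd pn ps pl l hD hI hl hED hEl _ h =>
      go_spec hk hB hA need D pd pn ps pl l E hD hI hl hE hED hEl hn h
  | cons x t ih =>
    intro D pd pn ps pl l hD hI hl hED hEl hL h
    obtain ⟨hx, hxA, hxE⟩ := hL x List.mem_cons_self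
    obtain ⟨pd', pn', ps', pl', l', h1, h2, h3, h4⟩ := ext_spec (c := false) hk hB hA hD hx hxA
      (fun h => absurd h (by decide)) hI hl h
    have h5 : ∀ e ∈ E, e ∉ insert (pos k x) D := fun e he h =>
      h.elim (fun h => hxE (h ▸ he)) (hED e he)
    refine ih _ _ _ _ _ l' (Set.insert_subset hxA hD) h1 h3 h5 (fun e he => ?_)
      (fun y hy => hL y (List.mem_cons_of_mem _ hy)) h2
    obtain ⟨y, hy, rfl⟩ := hEl e he
    exact ⟨y, h4 y hy (hE he) (h5 _ he), rfl⟩

/-- No Sidon set of size `k` contains the pattern `L`. -/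
def NoP (k : ℕ) (L : List ℕ) : Prop :=
  ∀ A : Finset (ZMod k × ZMod k), Sid A → A.card = k → (∀ x ∈ L, pos k x ∈ A) → False

theorem lall_spec {f : ℕ → Bool} {l : List ℕ} (h : lall f l = true) : ∀ x ∈ l, f x = true := by
  induction l with
  | nil => simp
  | cons y t ih =>
    have h' : cond (force y f) (lall f t) false = true := h
    rw [force_eq] at h'
    cases hy : f y
    · rw [hy] at h'
      exact (Bool.false_ne_true h').elim
    · rw [hy, cond_true] at h'
      exact List.forall_mem_cons.2 ⟨hy, ih h'⟩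

theorem msk_spec {L : List ℕ} {i : ℕ} (h : (msk L).testBit i = true) : i ∈ L := by
  induction L with
  | nil => exact absurd h (by simp [msk])
  | cons y t ih =>
    rcases lor_bit (M := msk t) h with h | h
    · exact List.mem_cons_of_mem _ (ih h)
    · rw [one_bit h]
      exact List.mem_cons_self

theorem cond_true_false {a b : Bool} (h : cond a b false = true) : a = true ∧ b = true := by
  cases a <;> simp_all

theorem NoP.affine {L : List ℕ} (h : NoP k L) {A : Finset (ZMod k × ZMod k)}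
    (hA : Sid A) (hc : A.card = k) {a b c d s t i : ZMod k} (e : a * d * i = 1 + b * c * i)
    (hL : ∀ x ∈ L, (a * (pos k x).1 + b * (pos k x).2 + s, c * (pos k x).1 + d * (pos k x).2 + t) ∈ A) :
    False := by
  let φ : ZMod k × ZMod k ≃ ZMod k × ZMod k :=
    { toFun := fun z => (a * z.1 + b * z.2 + s, c * z.1 + d * z.2 + t)
      invFun := fun z => (i * (d * (z.1 - s) - b * (z.2 - t)), i * (a * (z.2 - t) - c * (z.1 - s)))
      left_inv := fun z => Prod.ext (by simp only; linear_combination z.1 * e)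
        (by simp only; linear_combination z.2 * e)
      right_inv := fun z => Prod.ext (by simp only; linear_combination (z.1 - s) * e)
        (by simp only; linear_combination (z.2 - t) * e) }
  refine h (A.map φ.symm.toEmbedding) (fun p hp q hq r hr u hu e' => ?_)
    (by rw [Finset.card_map, hc]) fun x hx => Finset.mem_map_equiv.2 (hL x hx)
  rw [Finset.mem_map_equiv, Equiv.symm_symm] at hp hq hr hu
  have e1 := congrArg Prod.fst e'
  have e2 := congrArg Prod.snd e'
  simp only [Prod.fst_add, Prod.snd_add] at e1 e2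
  simpa using hA _ hp _ hq _ hr _ hu (Prod.ext
    (show a * p.1 + b * p.2 + s + (a * q.1 + b * q.2 + s) =
      a * r.1 + b * r.2 + s + (a * u.1 + b * u.2 + s) by linear_combination a * e1 + b * e2)
    (show c * p.1 + d * p.2 + t + (c * q.1 + d * q.2 + t) =
      c * r.1 + d * r.2 + t + (c * u.1 + d * u.2 + t) by linear_combination c * e1 + d * e2))

theorem cast_lin (a b t p : ℕ) :
    ((lin k a b t p : ℕ) : ZMod k) = a * (pos k p).1 + b * (pos k p).2 + t := by
  change (((a * (p / (2 * k)) + b * (p % (2 * k)) + t) % k : ℕ) : ZMod k) = _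
  rw [ZMod.natCast_mod]
  push_cast
  rfl

theorem wit_spec (hk : 0 < k) {P j T w : ℕ} (hP : ∀ i < j, NoP k (patt P i))
    {A : Finset (ZMod k × ZMod k)} (hA : Sid A) (hc : A.card = k) (hT : Snd k T A)
    (h : wit k P j T w = true) : False := by
  unfold wit at h
  simp only [force_eq] at h
  obtain ⟨h1, h2⟩ := cond_true_false h
  obtain ⟨h2, h3⟩ := cond_true_false h2
  rw [Nat.blt_eq] at h1
  rw [Nat.beq_eq] at h2
  have e := (ZMod.natCast_eq_natCast_iff' _ _ k).2 h2
  refine (hP _ h1).affine hA hc (a := dig w 0) (b := dig w 1) (c := dig w 2) (d := dig w 3)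
    (s := dig w 4) (t := dig w 5) (i := dig w 6) (by simpa using e) fun x hx => ?_
  have h4 := lall_spec h3 x hx
  rw [bit_eq] at h4
  have h5 : pos k (_ * (2 * k) + _) ∈ A := hT _ h4
  have h6 : lin k (dig w 2) (dig w 3) (dig w 5) x < k := Nat.mod_lt _ hk
  rwa [pos_mk _ (by omega), cast_lin, cast_lin] at h5

theorem cands_spec (hk : 0 < k) {P j T W : ℕ} (hP : ∀ i < j, NoP k (patt P i))
    {A : Finset (ZMod k × ZMod k)} (hA : Sid A) (hc : A.card = k) (hT : Snd k T A)
    (cont : List ℕ → ℕ → Bool) (m : ℕ) : ∀ acc : List ℕ,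
    cands k P j T W cont m acc acc.length = true → ∃ l : List ℕ, cont l l.length = true ∧
      (∀ y ∈ l, y ∈ acc ∨ ∃ i < m, y = idx k i) ∧ (∀ y ∈ acc, y ∈ l) ∧
      ∀ i < m, pos k (idx k i) ∈ A → idx k i ∈ l := by
  induction m with
  | zero => exact fun acc h => ⟨acc, h, fun y hy => Or.inl hy, fun y hy => hy, by simp⟩
  | succ m ih =>
    intro acc h
    have h' : (force (Nat.mod (Nat.shiftRight W (Nat.mul 40 m)) 1099511627776) fun w =>
      force (idx k m) fun y => cond (Nat.beq w 0)
        (cands k P j T W cont m (y :: acc) (y :: acc).length)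
        (cond (wit k P j (Nat.lor T (Nat.shiftLeft 1 y)) w)
          (cands k P j T W cont m acc acc.length) false)) = true := h
    simp only [force_eq] at h'
    generalize Nat.mod (Nat.shiftRight W (Nat.mul 40 m)) 1099511627776 = w at h'
    cases hw : Nat.beq w 0
    · rw [hw, cond_false] at h'
      obtain ⟨h1, h2⟩ := cond_true_false h'
      obtain ⟨l, h3, h4, h5, h6⟩ := ih _ h2
      refine ⟨l, h3, fun y hy => (h4 y hy).imp_right fun ⟨i, hi, e⟩ => ⟨i, by omega, e⟩, h5,
        fun i hi hiA => ?_⟩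
      rcases Nat.lt_succ_iff_lt_or_eq.1 hi with hi | rfl
      · exact h6 i hi hiA
      · exact (wit_spec hk hP hA hc (hT.lor fun y hy => by rwa [one_bit hy]) h1).elim
    · rw [hw, cond_true] at h'
      obtain ⟨l, h3, h4, h5, h6⟩ := ih _ h'
      refine ⟨l, h3, fun y hy => ?_, fun y hy => h5 y (List.mem_cons_of_mem _ hy),
        fun i hi hiA => ?_⟩
      · rcases h4 y hy with h7 | ⟨i, hi, e⟩
        · rcases List.mem_cons.1 h7 with rfl | h7
          · exact Or.inr ⟨m, by omega, rfl⟩
          · exact Or.inl h7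
        · exact Or.inr ⟨i, by omega, e⟩
      · rcases Nat.lt_succ_iff_lt_or_eq.1 hi with hi | rfl
        · exact h6 i hi hiA
        · exact h5 _ List.mem_cons_self

theorem base_idx (hk : 0 < k) {i : ℕ} (hi : i < k * k) : Base k (idx k i) := by
  have h1 : i % k < k := Nat.mod_lt _ hk
  have h2 : i / k < k := (Nat.div_lt_iff_lt_mul hk).2 hi
  have e : idx k i = 2 * k * (i / k) + i % k := by
    change i / k * (2 * k) + i % k = _
    rw [mul_comm]
  rw [e]
  constructor
  · rwa [Nat.mul_add_mod, Nat.mod_eq_of_lt (by omega)]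
  · rwa [Nat.mul_add_div (by omega), Nat.div_eq_of_lt (show i % k < 2 * k by omega), add_zero]

theorem exists_idx (hk : 0 < k) (z : ZMod k × ZMod k) : ∃ i < k * k, pos k (idx k i) = z := by
  have : NeZero k := ⟨hk.ne'⟩
  have h1 := ZMod.val_lt z.1
  have h2 := ZMod.val_lt z.2
  refine ⟨k * z.1.val + z.2.val, by nlinarith, ?_⟩
  change pos k ((k * z.1.val + z.2.val) / k * (2 * k) + (k * z.1.val + z.2.val) % k) = z
  rw [Nat.mul_add_div hk, Nat.mul_add_mod, Nat.div_eq_of_lt h2, Nat.mod_eq_of_lt h2, add_zero,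
    pos_mk _ (by omega), ZMod.natCast_zmod_val, ZMod.natCast_zmod_val]

theorem chk_spec (hk : 0 < k) {B : ℕ} (hB : ∀ i, B.testBit i = true → i % (2 * k) < k) {P j W : ℕ}
    (hP : ∀ i < j, NoP k (patt P i)) (h : chk k B P j W = true) : NoP k (patt P j) := by
  intro A hA hc hL
  unfold chk at h
  obtain ⟨h1, h2⟩ := cond_true_false h
  rw [force_eq] at h2
  generalize patt P j = L at *
  obtain ⟨l, h3, h4, -, h5⟩ := cands_spec hk hP hA hc (fun i hi => hL i (msk_spec hi)) _ _ [] h2
  have hz : ∀ T : Set (ZMod k × ZMod k), Snd k 0 T := fun T i hi => by simp at hi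
  refine pre_spec hk hB hA (k - L.length) (A \ (L.map (pos k)).toFinset) Finset.sdiff_subset ?_ L ∅
    0 0 0 0 l (Set.empty_subset _) ⟨hz _, hz _, hz _, hz _⟩ (fun y hy => ?_)
    (fun e _ => Set.notMem_empty e) (fun e he => ?_) (fun x hx => ⟨?_, hL x hx, fun h => ?_⟩) h3
  · have := Finset.le_card_sdiff (L.map (pos k)).toFinset A
    have := (List.toFinset_card_le (L.map (pos k))).trans (List.length_map _).le
    omega
  · obtain ⟨i, hi, rfl⟩ := (h4 y hy).resolve_left List.not_mem_nil
    exact base_idx hk hi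
  · obtain ⟨i, hi, rfl⟩ := exists_idx hk e
    exact ⟨_, h5 i hi (Finset.mem_sdiff.1 he).1, rfl⟩
  · obtain ⟨h6, h7⟩ := cond_true_false (lall_spec h1 x hx)
    rw [Nat.blt_eq] at h6 h7
    exact ⟨h6, h7⟩
  · exact (Finset.mem_sdiff.1 h).2 (List.mem_toFinset.2 (List.mem_map_of_mem hx))

theorem chks_spec (hk : 0 < k) {B : ℕ} (hB : ∀ i, B.testBit i = true → i % (2 * k) < k) {P : ℕ}
    (Ws : List ℕ) : ∀ j, (∀ i < j, NoP k (patt P i)) → chks k B P Ws j = true →
      ∀ i < j + Ws.length, NoP k (patt P i) := by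
  induction Ws with
  | nil => exact fun j h _ => h
  | cons W t ih =>
    intro j hj h i hi
    obtain ⟨h1, h2⟩ := cond_true_false (show cond (chk k B P j W) (chks k B P t (j + 1)) false = true
      from h)
    refine ih (j + 1) (fun i hi => ?_) h2 i (by rw [List.length_cons] at hi; omega)
    rcases Nat.lt_succ_iff_lt_or_eq.1 hi with hi | rfl
    · exact hj i hi
    · exact chk_spec hk hB hj h1

theorem base_mask {B : ℕ} (h1 : B < 2 ^ (2 * k * k))
    (h2 : ∀ i < 2 * k * k, B.testBit i = true → i % (2 * k) < k) :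
    ∀ i, B.testBit i = true → i % (2 * k) < k := fun i hi => by
  by_cases h : i < 2 * k * k
  · exact h2 i h hi
  · rw [Nat.testBit_lt_two_pow (h1.trans_le (Nat.pow_le_pow_right two_pos (not_lt.1 h)))] at hi
    exact absurd hi (by decide)

end Pool.Agent.P.MP_6c54ca_co
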