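import Pool.Agent.P.MP_6c54ca_co.HomA
import Pool.Agent.P.MP_6c54ca_co.SixA

/-! Witt vectors of length two, written with an explicit cocycle, and their Teichmueller sets. -/

namespace Pool.Agent.P.MP_6c54ca_co.Od

open Finset

structure Coc (K : Type) [Field K] where
  c : K → K → K
  symm : ∀ x y, c x y = c y x
  assoc : ∀ x y z, c x y + c (x + y) z = c y z + c x (y + z)
  zero : ∀ x, c 0 x = 0
  neg : ∀ x, c (-x) x = 0

@[ext] structure W2 {K : Type} [Field K] (κ : Coc K) where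
  a : K
  b : K

variable {K : Type} [Field K] {κ : Coc K}

instance : Add (W2 κ) := ⟨fun u v => ⟨u.a + v.a, u.b + v.b + κ.c u.a v.a⟩⟩
instance : Zero (W2 κ) := ⟨⟨0, 0⟩⟩
instance : Neg (W2 κ) := ⟨fun u => ⟨-u.a, -u.b⟩⟩

theorem add_a (u v : W2 κ) : (u + v).a = u.a + v.a := rfl
theorem add_b (u v : W2 κ) : (u + v).b = u.b + v.b + κ.c u.a v.a := rfl
theorem zero_a : (0 : W2 κ).a = 0 := rfl
theorem zero_b : (0 : W2 κ).b = 0 := rfl
theorem neg_a (u : W2 κ) : (-u).a = -u.a := rfl
theorem neg_b (u : W2 κ) : (-u).b = -u.b := rfl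

instance : AddGroup (W2 κ) :=
  AddGroup.ofLeftAxioms
    (fun u v w => by
      ext
      · simp only [add_a, add_assoc]
      · simp only [add_a, add_b]
        linear_combination κ.assoc u.a v.a w.a)
    (fun u => by ext <;> simp [add_a, add_b, zero_a, zero_b, κ.zero])
    (fun u => by ext <;> simp [add_a, add_b, zero_a, zero_b, neg_a, neg_b, κ.neg])

instance : AddCommGroup (W2 κ) where
  add_comm u v := by
    ext
    · simp only [add_a, add_comm]
    · simp only [add_b, κ.symm u.a v.a, add_comm]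

def fstHom (κ : Coc K) : W2 κ →+ K := ⟨⟨fun u => u.a, rfl⟩, fun _ _ => rfl⟩

theorem surj {p r : ℕ} [Fact p.Prime] [CharP K p] [Finite K] [Algebra (ZMod p) K]
    (bK : Module.Basis (Fin r) (ZMod p) K) (h : ∀ w : W2 κ, p • w = ⟨0, -w.a ^ p⟩) :
    ∃ f : (Fin r → ZMod (p ^ 2)) →+ W2 κ, Function.Surjective f := by
  have hp : p ≠ 0 := (Fact.out : p.Prime).ne_zero
  have h2 : ∀ w : W2 κ, (p ^ 2) • w = 0 := by
    intro w
    rw [pow_two, mul_nsmul, h, h]
    ext
    · rfl
    · simp [zero_b, hp]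
  let g : Fin r → W2 κ := fun i => ⟨bK i, 0⟩
  let f : Fin r → ZMod (p ^ 2) →+ W2 κ := fun i =>
    ZMod.lift (p ^ 2) ⟨zmultiplesHom _ (g i), by
      rw [zmultiplesHom_apply, natCast_zsmul, h2]⟩
  have hf : ∀ i (n : ℕ), f i n = n • g i := by
    intro i n
    have := ZMod.lift_coe (p ^ 2) ⟨zmultiplesHom _ (g i), by
      rw [zmultiplesHom_apply, natCast_zsmul, h2]⟩ (n : ℤ)
    simpa using this
  let F : (Fin r → ZMod (p ^ 2)) →+ W2 κ :=
    ∑ i, (f i).comp (Pi.evalAddMonoidHom (fun _ => ZMod (p ^ 2)) i)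
  have h3 : ∀ x : K, ∃ w ∈ F.range, w.a = x := by
    intro x
    refine ⟨F fun i => ((bK.repr x i).val : ℕ), ⟨_, rfl⟩, ?_⟩
    show fstHom κ (F _) = x
    simp only [F, AddMonoidHom.finsetSum_apply, AddMonoidHom.comp_apply,
      Pi.evalAddMonoidHom_apply, hf, map_sum, map_nsmul]
    nth_rw 2 [← bK.sum_repr x]
    refine sum_congr rfl fun i _ => ?_
    rw [← Nat.cast_smul_eq_nsmul (ZMod p), ZMod.natCast_zmod_val]
    rfl
  have h4 : ∀ s : K, (⟨0, s⟩ : W2 κ) ∈ F.range := by
    intro s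
    obtain ⟨x, hx⟩ := surjective_frobenius K p (-s)
    obtain ⟨w, hw, e⟩ := h3 x
    have := F.range.nsmul_mem hw p
    have hx' : x ^ p = -s := hx
    rw [h, e, hx', neg_neg] at this
    exact this
  refine ⟨F, fun u => ?_⟩
  obtain ⟨w, hw, e⟩ := h3 u.a
  have := F.range.add_mem (h4 (u.b - w.b)) hw
  have e2 : (⟨0, u.b - w.b⟩ : W2 κ) + w = u := by
    ext
    · simp [add_a, e]
    · simp [add_b, κ.zero]
  rw [e2] at this
  exact this

theorem half [Fintype K] (h2 : (2 : K) ≠ 0) (X : Finset K) (h0 : 0 ∉ X)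
    (hX : ∀ x ∈ X, -x ∈ X) : ∃ Y ⊆ X, #X ≤ 2 * #Y ∧ ∀ x ∈ Y, ∀ y ∈ Y, x + y ≠ 0 := by
  classical
  let f := Fintype.equivFin K
  refine ⟨{x ∈ X | f x < f (-x)}, filter_subset _ _, ?_, ?_⟩
  · calc #X ≤ #({x ∈ X | f x < f (-x)} ∪ {x ∈ X | f x < f (-x)}.image fun x => -x) := by
          apply card_le_card
          intro x hx
          rcases lt_trichotomy (f x) (f (-x)) with h | h | h
          · exact mem_union_left _ (mem_filter.mpr ⟨hx, h⟩)
          · have h3 : x = -x := f.injective h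
            have h4 : 2 * x = 0 := by linear_combination h3
            rw [(mul_eq_zero.mp h4).resolve_left h2] at hx
            exact absurd hx h0
          · exact mem_union_right _ (mem_image.mpr
              ⟨-x, mem_filter.mpr ⟨hX x hx, by rwa [neg_neg]⟩, neg_neg x⟩)
      _ ≤ _ := (card_union_le _ _).trans (by
          rw [two_mul]; exact Nat.add_le_add_left card_image_le _)
  · intro x hx y hy h
    have e : y = -x := by linear_combination h
    have h3 := (mem_filter.mp hy).2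
    rw [e, neg_neg] at h3
    exact lt_asymm h3 (mem_filter.mp hx).2

theorem teich {G : Type*} [AddCommGroup G] (f : G →+ W2 κ) (hf : Function.Surjective f)
    (Y : Finset K) (hY : ∀ x ∈ Y, ∀ y ∈ Y, ∀ z ∈ Y, ∀ w ∈ Y, x + y = z + w →
      κ.c x y = κ.c z w → (x - z) * (y - z) = 0) : ∃ A : Finset G, Sd A ∧ #A = #Y := by
  classical
  obtain ⟨A, hA, hc⟩ := pull0 (Function.surjInv hf) (Y.image fun x => (⟨x, 0⟩ : W2 κ))
    (fun x _ y _ z _ w _ h => by
      have := congrArg f h
      simpa only [map_add, Function.surjInv_eq] using this) (by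
    intro a ha b hb c hc d hd h
    obtain ⟨x, hx, rfl⟩ := mem_image.mp ha
    obtain ⟨y, hy, rfl⟩ := mem_image.mp hb
    obtain ⟨z, hz, rfl⟩ := mem_image.mp hc
    obtain ⟨w, hw, rfl⟩ := mem_image.mp hd
    have h1 : x + y = z + w := congrArg W2.a h
    have h3 : κ.c x y = κ.c z w := by simpa [add_b] using congrArg W2.b h
    have h4 : w = x + y - z := by rw [h1]; ring
    rcases mul_eq_zero.mp (hY x hx y hy z hz w hw h1 h3) with h6 | h6
    · have e : x = z := sub_eq_zero.mp h6
      left; rw [h4, e]; simp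
    · have e : y = z := sub_eq_zero.mp h6
      right; rw [h4, e]; simp)
  exact ⟨A, hA, by rw [hc, card_image_of_injective _ fun x y h => congrArg W2.a h]⟩

def coc3 (K : Type) [Field K] : Coc K where
  c x y := x * y * (x + y)
  symm x y := by ring
  assoc x y z := by ring
  zero x := by ring
  neg x := by ring

def coc5 (K : Type) [Field K] : Coc K where
  c x y := x * y * (x + y) * (x ^ 2 + x * y + y ^ 2)
  symm x y := by ring
  assoc x y z := by ring
  zero x := by ring
  neg x := by ring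

theorem three_nsmul' (h3 : (3 : K) = 0) (w : W2 (coc3 K)) : 3 • w = ⟨0, -w.a ^ 3⟩ := by
  rw [show 3 • w = w + w + w by abel]
  ext
  · simp only [add_a]; linear_combination w.a * h3
  · rw [add_b, add_b, add_a]
    simp only [coc3]; linear_combination (w.b + 3 * w.a ^ 3) * h3

theorem five_nsmul' (h5 : (5 : K) = 0) (w : W2 (coc5 K)) : 5 • w = ⟨0, -w.a ^ 5⟩ := by
  rw [show 5 • w = w + w + w + w + w by abel]
  ext
  · simp only [add_a]; linear_combination w.a * h5
  · rw [add_b, add_b, add_b, add_b]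
    simp only [add_a]
    simp only [coc5]; linear_combination (w.b + 125 * w.a ^ 5) * h5

theorem nine (r : ℕ) (hr : r ≠ 0) :
    ∃ A : Finset (Fin r → ZMod (3 ^ 2)), Sd A ∧ 3 ^ r ≤ 2 * #A + 1 := by
  classical
  have : Fact (Nat.Prime 3) := ⟨by norm_num⟩
  let K := GaloisField 3 r
  let _ : Fintype K := Fintype.ofFinite K
  have hK : Fintype.card K = 3 ^ r := by rw [← Nat.card_eq_fintype_card, GaloisField.card 3 r hr]
  have h3 : (3 : K) = 0 := by exact_mod_cast CharP.cast_eq_zero K 3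
  have h2 : (2 : K) ≠ 0 := fun h => one_ne_zero (α := K) (by linear_combination h3 - h)
  obtain ⟨f, hf⟩ := surj (Module.finBasisOfFinrankEq (ZMod 3) K (GaloisField.finrank 3 hr))
    (three_nsmul' h3)
  obtain ⟨Y, -, c1, c2⟩ := half h2 (univ.erase (0 : K)) (by simp) (by simp)
  obtain ⟨A, hA, hc⟩ := teich f hf Y (by
    intro x hx y hy z _ w _ e1 e2
    have h4 : w = x + y - z := by rw [e1]; ring
    apply mul_left_cancel₀ (c2 x hx y hy)
    simp only [coc3, h4] at e2
    linear_combination e2)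
  refine ⟨A, hA, ?_⟩
  rw [card_erase_of_mem (mem_univ _), card_univ, hK] at c1
  omega

theorem exists_level [Fintype K] [DecidableEq K] (φ : K →+ ZMod 5) (hφ : Function.Surjective φ) :
    ∃ α : K, Fintype.card K ≤ 5 * #{x : K | φ (α * x ^ 2) = 1} + 1 := by
  have h1 := Six.card_fiber φ hφ 1
  rw [ZMod.card] at h1
  have h2 : ∀ x : K, x ≠ 0 → #{α : K | φ (α * x ^ 2) = 1} = #{g : K | φ g = 1} := by
    intro x hx
    apply card_nbij' (fun α => α * x ^ 2) (fun g => g / x ^ 2)
    · intro t ht; simpa using ht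
    · intro t ht; simpa [hx] using ht
    · intro t _; simp [hx]
    · intro t _; simp [hx]
  have h3 : (Fintype.card K - 1) * #{g : K | φ g = 1}
      ≤ ∑ α : K, #{x : K | φ (α * x ^ 2) = 1} := by
    simp_rw [card_filter (fun x : K => φ (_ * x ^ 2) = 1)]
    rw [sum_comm]
    simp_rw [← card_filter]
    calc _ = ∑ x ∈ univ.erase (0 : K), #{α : K | φ (α * x ^ 2) = 1} := by
          rw [sum_congr rfl fun x hx => h2 x (ne_of_mem_erase hx), sum_const,
            card_erase_of_mem (mem_univ _), card_univ, smul_eq_mul]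
      _ ≤ _ := sum_le_sum_of_subset (subset_univ _)
  have hex : ∃ α ∈ (univ : Finset K), Fintype.card K - 1 ≤ 5 * #{x : K | φ (α * x ^ 2) = 1} := by
    apply exists_le_of_sum_le univ_nonempty
    rw [← mul_sum, sum_const, card_univ, smul_eq_mul]
    calc Fintype.card K * (Fintype.card K - 1)
        = 5 * ((Fintype.card K - 1) * #{g : K | φ g = 1}) := by
          nth_rw 1 [← h1]; ring
      _ ≤ _ := Nat.mul_le_mul_left _ h3
  obtain ⟨α, -, h⟩ := hex
  exact ⟨α, by omega⟩

theorem four_ne : ¬ (1 + 1 + 1 + 1 : ZMod 5) = 0 := by decide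

theorem twentyfive (r : ℕ) (hr : r ≠ 0) :
    ∃ A : Finset (Fin r → ZMod (5 ^ 2)), Sd A ∧ 5 ^ r ≤ 10 * #A + 1 := by
  classical
  have : Fact (Nat.Prime 5) := ⟨by norm_num⟩
  let K := GaloisField 5 r
  let _ : Fintype K := Fintype.ofFinite K
  have hK : Fintype.card K = 5 ^ r := by rw [← Nat.card_eq_fintype_card, GaloisField.card 5 r hr]
  have h5 : (5 : K) = 0 := by exact_mod_cast CharP.cast_eq_zero K 5
  have h2 : (2 : K) ≠ 0 := fun h => one_ne_zero (α := K) (by linear_combination h5 - 2 * h)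
  let bK := Module.finBasisOfFinrankEq (ZMod 5) K (GaloisField.finrank 5 hr)
  obtain ⟨f, hf⟩ := surj bK (five_nsmul' h5)
  let i : Fin r := ⟨0, Nat.pos_of_ne_zero hr⟩
  let φ : K →+ ZMod 5 := (bK.coord i).toAddMonoidHom
  have hφ : Function.Surjective φ := fun t => ⟨t • bK i, by simp [φ]⟩
  obtain ⟨α, hα⟩ := exists_level φ hφ
  obtain ⟨Y, c0, c1, c2⟩ := half h2 {x : K | φ (α * x ^ 2) = 1} (by simp) (by simp)
  obtain ⟨A, hA, hc⟩ := teich f hf Y (by
    intro x hx y hy z hz w hw e1 e2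
    have h4 : w = x + y - z := by rw [e1]; ring
    have h6 : x ^ 2 + y ^ 2 + z ^ 2 + w ^ 2 ≠ 0 := by
      intro h
      have h7 : φ (α * x ^ 2) + φ (α * y ^ 2) + φ (α * z ^ 2) + φ (α * w ^ 2) = 0 := by
        rw [← map_add, ← map_add, ← map_add, ← mul_add, ← mul_add, ← mul_add, h, mul_zero,
          map_zero]
      rw [(mem_filter.mp (c0 hx)).2, (mem_filter.mp (c0 hy)).2, (mem_filter.mp (c0 hz)).2,
        (mem_filter.mp (c0 hw)).2] at h7
      exact absurd h7 four_ne
    apply mul_left_cancel₀ (c2 x hx y hy)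
    apply mul_left_cancel₀ h6
    simp only [coc5, h4] at e2 ⊢
    linear_combination 2 * e2)
  refine ⟨A, hA, ?_⟩
  rw [hK] at hα
  omega

end Pool.Agent.P.MP_6c54ca_co.Od
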